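import Mathlib

set_option autoImplicit false

/-!
# Two-colourings of cubic graphs whose colour classes induce forests
-/

namespace Pool.Agent.CubicFree

open Finset

variable {V : Type*}

/-- the graph of the monochromatic edges -/
def monoGraph (G : SimpleGraph V) (col : V → Bool) : SimpleGraph V where
  Adj x y := G.Adj x y ∧ col x = col y
  symm := ⟨fun _ _ h => ⟨h.1.symm, h.2.symm⟩⟩
  loopless := ⟨fun _ h => h.1.ne rfl⟩

theorem monoGraph_adj {G : SimpleGraph V} {col : V → Bool} {x y : V} :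
    (monoGraph G col).Adj x y ↔ G.Adj x y ∧ col x = col y := Iff.rfl

section count

variable [Fintype V] [DecidableEq V] (G : SimpleGraph V) [DecidableRel G.Adj]

/-- indicator of a monochromatic pair -/
def tt (col : V → Bool) (x y : V) : ℕ := if G.Adj x y ∧ col x = col y then 1 else 0

/-- twice the number of monochromatic edges -/
def Phi (col : V → Bool) : ℕ := ∑ x, ∑ y, tt G col x y

/-- number of monochromatic neighbours -/
def mm (col : V → Bool) (x : V) : ℕ := ∑ y, tt G col x y

omit [Fintype V] [DecidableEq V] in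
theorem tt_symm (col : V → Bool) (x y : V) : tt G col x y = tt G col y x := by
  unfold tt
  by_cases h : G.Adj x y ∧ col x = col y
  · rw [if_pos h, if_pos ⟨h.1.symm, h.2.symm⟩]
  · rw [if_neg h, if_neg (fun h' => h ⟨h'.1.symm, h'.2.symm⟩)]

omit [Fintype V] [DecidableEq V] in
theorem tt_self (col : V → Bool) (x : V) : tt G col x x = 0 := by
  unfold tt
  rw [if_neg (fun h => h.1.ne rfl)]

theorem Phi_eq (col : V → Bool) (x0 : V) :
    Phi G col = 2 * mm G col x0 + ∑ x ∈ univ.erase x0, ∑ y ∈ univ.erase x0, tt G col x y := by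
  unfold Phi
  rw [← Finset.add_sum_erase univ _ (mem_univ x0)]
  have h1 : ∀ x, ∑ y, tt G col x y = tt G col x x0 + ∑ y ∈ univ.erase x0, tt G col x y :=
    fun x => (Finset.add_sum_erase univ _ (mem_univ x0)).symm
  have h2 : ∑ x ∈ univ.erase x0, ∑ y, tt G col x y = ∑ x ∈ univ.erase x0, tt G col x x0 +
      ∑ x ∈ univ.erase x0, ∑ y ∈ univ.erase x0, tt G col x y := by
    rw [← Finset.sum_add_distrib]
    exact Finset.sum_congr rfl (fun x _ => h1 x)
  rw [h2]
  have h3 : ∑ x ∈ univ.erase x0, tt G col x x0 = mm G col x0 := by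
    unfold mm
    rw [← Finset.add_sum_erase univ _ (mem_univ x0), tt_self, zero_add]
    exact Finset.sum_congr rfl (fun x _ => tt_symm G col x x0)
  rw [h3]
  unfold mm
  ring

theorem mm_flip (hreg : ∀ v, G.degree v = 3) (col : V → Bool) (x0 : V) :
    mm G (Function.update col x0 (!col x0)) x0 + mm G col x0 = 3 := by
  unfold mm
  rw [← Finset.sum_add_distrib]
  have h : ∀ y, tt G (Function.update col x0 (!col x0)) x0 y + tt G col x0 y =
      if G.Adj x0 y then 1 else 0 := by
    intro y
    by_cases hxy : G.Adj x0 y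
    · have hy : y ≠ x0 := hxy.ne'
      unfold tt
      rw [Function.update_self, Function.update_of_ne hy]
      cases col x0 <;> cases col y <;> simp [hxy]
    · unfold tt
      simp [hxy]
  rw [Finset.sum_congr rfl (fun y _ => h y), Finset.sum_ite, Finset.sum_const_zero, add_zero,
    Finset.sum_const, smul_eq_mul, mul_one, ← hreg x0, SimpleGraph.degree,
    SimpleGraph.neighborFinset_eq_filter]

theorem Phi_flip (hreg : ∀ v, G.degree v = 3) (col : V → Bool) (x0 : V)
    (h : 2 ≤ mm G col x0) : Phi G (Function.update col x0 (!col x0)) < Phi G col := by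
  rw [Phi_eq G col x0, Phi_eq G _ x0]
  have h1 := mm_flip G hreg col x0
  have h2 : ∑ x ∈ univ.erase x0, ∑ y ∈ univ.erase x0,
      tt G (Function.update col x0 (!col x0)) x y =
      ∑ x ∈ univ.erase x0, ∑ y ∈ univ.erase x0, tt G col x y := by
    refine Finset.sum_congr rfl (fun x hx => Finset.sum_congr rfl (fun y hy => ?_))
    unfold tt
    rw [Function.update_of_ne (Finset.ne_of_mem_erase hx),
      Function.update_of_ne (Finset.ne_of_mem_erase hy)]
  rw [h2]
  omega

theorem two_le_mm {col : V → Bool} {x y z : V} (hyz : y ≠ z) (hy : (monoGraph G col).Adj x y)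
    (hz : (monoGraph G col).Adj x z) : 2 ≤ mm G col x := by
  unfold mm
  calc 2 = ∑ w ∈ {y, z}, tt G col x w := by
        rw [Finset.sum_pair hyz]
        unfold tt
        rw [if_pos (monoGraph_adj.mp hy), if_pos (monoGraph_adj.mp hz)]
    _ ≤ ∑ w, tt G col x w := Finset.sum_le_sum_of_subset (Finset.subset_univ _)

end count

theorem exists_colouring [Finite V] (G : SimpleGraph V)
    (hreg : ∀ v, (G.neighborSet v).ncard = 3) (S : Set V)
    (hS : ∀ u ∈ S, ∀ v ∈ S, u ≠ v → ∀ p : G.Walk u v, 4 ≤ p.length)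
    (hK : ∀ v ∈ S, ∃ a b, G.Adj v a ∧ G.Adj v b ∧ a ≠ b ∧ ¬ G.Adj a b) :
    ∃ (col : V → Bool) (a b c : V → V),
      (∀ v ∈ S, G.Adj v (a v) ∧ G.Adj v (b v) ∧ G.Adj v (c v) ∧ a v ≠ b v ∧ a v ≠ c v ∧
        b v ≠ c v ∧ ¬ G.Adj (a v) (b v) ∧ col (a v) = col v ∧ col (b v) = col v ∧
        col (c v) ≠ col v) ∧ (monoGraph G col).IsAcyclic := by
  classical
  have := Fintype.ofFinite V
  have hreg' : ∀ v, G.degree v = 3 := by
    intro v
    rw [← hreg v, ← SimpleGraph.card_neighborSet_eq_degree, Set.ncard_eq_toFinset_card',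
      Set.toFinset_card]
  -- distance facts
  have D1 : ∀ u ∈ S, ∀ v ∈ S, ¬ G.Adj u v := by
    intro u hu v hv h
    have := hS u hu v hv h.ne (SimpleGraph.Walk.cons h SimpleGraph.Walk.nil)
    simp at this
  have D2 : ∀ u ∈ S, ∀ v ∈ S, ∀ x, G.Adj u x → G.Adj v x → u = v := by
    intro u hu v hv x h1 h2
    by_contra hne
    have := hS u hu v hv hne
      (SimpleGraph.Walk.cons h1 (SimpleGraph.Walk.cons h2.symm SimpleGraph.Walk.nil))
    simp at this
  have D3 : ∀ u ∈ S, ∀ v ∈ S, ∀ x y, G.Adj u x → G.Adj x y → G.Adj v y → u = v := by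
    intro u hu v hv x y h1 h2 h3
    by_contra hne
    have := hS u hu v hv hne
      (SimpleGraph.Walk.cons h1 (SimpleGraph.Walk.cons h2
        (SimpleGraph.Walk.cons h3.symm SimpleGraph.Walk.nil)))
    simp at this
  -- the three neighbours
  have hN : ∀ v ∈ S, ∃ a b c, G.Adj v a ∧ G.Adj v b ∧ G.Adj v c ∧ a ≠ b ∧ a ≠ c ∧ b ≠ c ∧
      ¬ G.Adj a b := by
    intro v hv
    obtain ⟨a, b, ha, hb, hab, hnab⟩ := hK v hv
    have hcard : ({a, b} : Finset V).card < (G.neighborFinset v).card := by
      rw [G.card_neighborFinset_eq_degree, hreg' v, Finset.card_pair hab]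
      norm_num
    obtain ⟨c, hc, hc'⟩ := Finset.exists_mem_notMem_of_card_lt_card hcard
    rw [SimpleGraph.mem_neighborFinset] at hc
    simp only [Finset.mem_insert, Finset.mem_singleton, not_or] at hc'
    exact ⟨a, b, c, ha, hb, hc, hab, fun h => hc'.1 h.symm, fun h => hc'.2 h.symm, hnab⟩
  choose! a b c hva hvb hvc hab hac hbc hnab using hN
  let Good : (V → Bool) → Prop := fun col =>
    ∀ v ∈ S, col (a v) = col v ∧ col (b v) = col v ∧ col (c v) ≠ col v
  have hgood0 : Good (fun x => decide (∃ s ∈ S, x = c s)) := by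
    intro v hv
    have h1 : ¬ ∃ s ∈ S, v = c s := by
      rintro ⟨s, hs, h⟩
      exact D1 s hs v hv (h ▸ hvc s hs)
    have h2 : ¬ ∃ s ∈ S, a v = c s := by
      rintro ⟨s, hs, h⟩
      have := D2 v hv s hs (a v) (hva v hv) (h ▸ hvc s hs)
      subst this
      exact hac v hv h
    have h3 : ¬ ∃ s ∈ S, b v = c s := by
      rintro ⟨s, hs, h⟩
      have := D2 v hv s hs (b v) (hvb v hv) (h ▸ hvc s hs)
      subst this
      exact hbc v hv h
    have h4 : ∃ s ∈ S, c v = c s := ⟨v, hv, rfl⟩
    simp only [h1, h2, h3, h4, decide_true, decide_false]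
    decide
  obtain ⟨col, hcol, hmin⟩ := Finset.exists_min_image (univ.filter Good) (Phi G)
    ⟨fun x => decide (∃ s ∈ S, x = c s), Finset.mem_filter.mpr ⟨mem_univ _, hgood0⟩⟩
  rw [Finset.mem_filter] at hcol
  have hgood := hcol.2
  -- noncluster vertices have at most one monochromatic neighbour
  have hnc : ∀ x, (∀ s ∈ S, x ≠ s ∧ x ≠ a s ∧ x ≠ b s ∧ x ≠ c s) → mm G col x ≤ 1 := by
    intro x hx
    by_contra hm
    have hlt := Phi_flip G hreg' col x (by omega)
    have hg : Good (Function.update col x (!col x)) := by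
      intro v hv
      obtain ⟨h1, h2, h3, h4⟩ := hx v hv
      rw [Function.update_of_ne h1.symm, Function.update_of_ne h2.symm,
        Function.update_of_ne h3.symm, Function.update_of_ne h4.symm]
      exact hgood v hv
    have := hmin _ (Finset.mem_filter.mpr ⟨mem_univ _, hg⟩)
    omega
  refine ⟨col, a, b, c, fun v hv => ⟨hva v hv, hvb v hv, hvc v hv, hab v hv, hac v hv, hbc v hv,
    hnab v hv, (hgood v hv).1, (hgood v hv).2.1, (hgood v hv).2.2⟩, ?_⟩
  intro u p hp
  -- each vertex of the cycle has two monochromatic neighbours on it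
  have htwo : ∀ x ∈ p.support, ∃ y z, y ≠ z ∧ (monoGraph G col).Adj x y ∧
      (monoGraph G col).Adj x z ∧ y ∈ p.support ∧ z ∈ p.support := by
    intro x hx
    have h2 := hp.ncard_neighborSet_toSubgraph_eq_two hx
    rw [Set.ncard_eq_two] at h2
    obtain ⟨y, z, hyz, h⟩ := h2
    have hy : y ∈ p.toSubgraph.neighborSet x := by rw [h]; simp
    have hz : z ∈ p.toSubgraph.neighborSet x := by rw [h]; simp
    rw [SimpleGraph.Subgraph.mem_neighborSet] at hy hz
    refine ⟨y, z, hyz, hy.adj_sub, hz.adj_sub, ?_, ?_⟩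
    · rw [← SimpleGraph.Walk.mem_verts_toSubgraph]; exact hy.snd_mem
    · rw [← SimpleGraph.Walk.mem_verts_toSubgraph]; exact hz.snd_mem
  have hcl : ∀ x ∈ p.support, ∃ s ∈ S, x = s ∨ x = a s ∨ x = b s ∨ x = c s := by
    intro x hx
    by_contra hno
    push Not at hno
    have h1 := hnc x hno
    obtain ⟨y, z, hyz, hy, hz, -, -⟩ := htwo x hx
    have := two_le_mm G hyz hy hz
    omega
  -- adjacent cluster vertices lie in the same cluster
  have hsame : ∀ s ∈ S, ∀ x, (x = s ∨ x = a s ∨ x = b s ∨ x = c s) → ∀ y ∈ p.support,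
      G.Adj x y → (y = s ∨ y = a s ∨ y = b s ∨ y = c s) := by
    intro s hs x hx y hy hxy
    obtain ⟨t, ht, hty⟩ := hcl y hy
    suffices hst : s = t by rw [hst]; exact hty
    have hx' : x = s ∨ G.Adj s x := by
      rcases hx with h | h | h | h
      · exact Or.inl h
      · exact Or.inr (h ▸ hva s hs)
      · exact Or.inr (h ▸ hvb s hs)
      · exact Or.inr (h ▸ hvc s hs)
    have hy' : y = t ∨ G.Adj t y := by
      rcases hty with h | h | h | h
      · exact Or.inl h
      · exact Or.inr (h ▸ hva t ht)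
      · exact Or.inr (h ▸ hvb t ht)
      · exact Or.inr (h ▸ hvc t ht)
    rcases hx' with h1 | h1 <;> rcases hy' with h2 | h2
    · subst h1 h2
      exact absurd hxy (D1 _ hs _ ht)
    · subst h1
      exact D2 _ hs _ ht y hxy h2
    · subst h2
      exact D2 _ hs _ ht x h1 hxy.symm
    · exact D3 _ hs _ ht x y h1 hxy h2
  have hcc : ∀ s ∈ S, c s ∉ p.support := by
    intro s hs hin
    obtain ⟨y, z, hyz, hy, hz, hyp, hzp⟩ := htwo _ hin
    obtain ⟨g1, g2, g3⟩ := hgood s hs
    rcases hsame s hs (c s) (Or.inr (Or.inr (Or.inr rfl))) y hyp hy.1 with h | h | h | h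
    · exact g3 (by rw [hy.2, h])
    · exact g3 (by rw [hy.2, h, g1])
    · exact g3 (by rw [hy.2, h, g2])
    · exact hy.1.ne h.symm
  have haa : ∀ s ∈ S, a s ∉ p.support := by
    intro s hs hin
    obtain ⟨y, z, hyz, hy, hz, hyp, hzp⟩ := htwo _ hin
    have key : ∀ y, y ∈ p.support → (monoGraph G col).Adj (a s) y → y = s := by
      intro y hyp hy
      rcases hsame s hs (a s) (Or.inr (Or.inl rfl)) y hyp hy.1 with h | h | h | h
      · exact h
      · exact absurd h.symm hy.1.ne
      · exact absurd (h ▸ hy.1) (hnab s hs)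
      · exact absurd (h ▸ hyp) (hcc s hs)
    exact hyz ((key y hyp hy).trans (key z hzp hz).symm)
  have hbb : ∀ s ∈ S, b s ∉ p.support := by
    intro s hs hin
    obtain ⟨y, z, hyz, hy, hz, hyp, hzp⟩ := htwo _ hin
    have key : ∀ y, y ∈ p.support → (monoGraph G col).Adj (b s) y → y = s := by
      intro y hyp hy
      rcases hsame s hs (b s) (Or.inr (Or.inr (Or.inl rfl))) y hyp hy.1 with h | h | h | h
      · exact h
      · exact absurd (h ▸ hyp) (haa s hs)
      · exact absurd h.symm hy.1.ne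
      · exact absurd (h ▸ hyp) (hcc s hs)
    exact hyz ((key y hyp hy).trans (key z hzp hz).symm)
  have hss : ∀ s ∈ S, s ∉ p.support := by
    intro s hs hin
    obtain ⟨y, z, hyz, hy, hz, hyp, hzp⟩ := htwo _ hin
    rcases hsame s hs s (Or.inl rfl) y hyp hy.1 with h | h | h | h
    · exact hy.1.ne h.symm
    · exact haa s hs (h ▸ hyp)
    · exact hbb s hs (h ▸ hyp)
    · exact hcc s hs (h ▸ hyp)
  obtain ⟨s, hs, h⟩ := hcl u p.start_mem_support
  rcases h with h | h | h | h
  · exact hss s hs (h ▸ p.start_mem_support)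
  · exact haa s hs (h ▸ p.start_mem_support)
  · exact hbb s hs (h ▸ p.start_mem_support)
  · exact hcc s hs (h ▸ p.start_mem_support)

end Pool.Agent.CubicFree
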