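import Mathlib

set_option autoImplicit false

/-!
# Far apart vertices in cubic graphs
-/

namespace Pool.Agent.CubicFree

open Finset

variable {V : Type*}

/-- a connected cubic graph other than `K₄` has two non-adjacent neighbours at each vertex -/
theorem exists_nonadj [Finite V] (G : SimpleGraph V) (hconn : G.Connected)
    (hreg : ∀ v, (G.neighborSet v).ncard = 3) (hcard : Nat.card V ≠ 4) (v : V) :
    ∃ a b, G.Adj v a ∧ G.Adj v b ∧ a ≠ b ∧ ¬ G.Adj a b := by
  classical
  have := Fintype.ofFinite V
  by_contra hno
  push Not at hno
  have hreg' : ∀ v, (G.neighborFinset v).card = 3 := by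
    intro v
    rw [← hreg v, G.card_neighborFinset_eq_degree, ← SimpleGraph.card_neighborSet_eq_degree,
      Set.ncard_eq_toFinset_card', Set.toFinset_card]
  let N : Finset V := insert v (G.neighborFinset v)
  have hN : N.card = 4 := by
    rw [Finset.card_insert_of_notMem, hreg' v]
    simp
  have hclosed : ∀ x ∈ N, ∀ y, G.Adj x y → y ∈ N := by
    intro x hx y hxy
    rw [Finset.mem_insert, SimpleGraph.mem_neighborFinset] at hx
    rcases hx with rfl | hx
    · exact Finset.mem_insert_of_mem (by simpa using hxy)
    · -- the neighbours of `x` are the other members of `N`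
      have hsub : N.erase x ⊆ G.neighborFinset x := by
        intro z hz
        rw [Finset.mem_erase, Finset.mem_insert, SimpleGraph.mem_neighborFinset] at hz
        rw [SimpleGraph.mem_neighborFinset]
        rcases hz with ⟨hzx, rfl | hz⟩
        · exact hx.symm
        · exact hno x z hx hz hzx.symm
      have hxN : x ∈ N := Finset.mem_insert_of_mem (by simpa using hx)
      have heq : N.erase x = G.neighborFinset x := by
        apply Finset.eq_of_subset_of_card_le hsub
        rw [Finset.card_erase_of_mem hxN, hN, hreg' x]
      have : y ∈ N.erase x := by rw [heq]; simpa using hxy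
      exact Finset.mem_of_mem_erase this
  have hall : ∀ y, y ∈ N := by
    have hw : ∀ x y (_ : G.Walk x y), x ∈ N → y ∈ N := by
      intro x y p
      induction p with
      | nil => exact fun h => h
      | cons h _ ih => exact fun hx => ih (hclosed _ hx _ h)
    intro y
    obtain ⟨p⟩ := hconn.preconnected v y
    exact hw v y p (Finset.mem_insert_self _ _)
  apply hcard
  have : N = univ := Finset.eq_univ_iff_forall.mpr hall
  rw [Nat.card_eq_fintype_card, ← Finset.card_univ, ← this, hN]

/-- two vertices with no walk of length at most three between them -/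
def Far (G : SimpleGraph V) (u v : V) : Prop := ∀ p : G.Walk u v, 4 ≤ p.length

theorem Far.symm {G : SimpleGraph V} {u v : V} (h : Far G u v) : Far G v u := by
  intro p
  have := h p.reverse
  rwa [SimpleGraph.Walk.length_reverse] at this

section ball

variable [Fintype V] [DecidableEq V] (G : SimpleGraph V) [DecidableRel G.Adj]

/-- the neighbours other than `x` -/
def Nx (x y : V) : Finset V := (G.neighborFinset y).erase x

/-- the ball of radius three -/
def ball3 (s : V) : Finset V :=
  insert s ((G.neighborFinset s).biUnion fun a =>
    insert a ((Nx G s a).biUnion fun b => insert b (Nx G a b)))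

theorem card_Nx (hreg : ∀ v, (G.neighborFinset v).card = 3) {x y : V} (h : G.Adj x y) :
    (Nx G x y).card = 2 := by
  unfold Nx
  rw [Finset.card_erase_of_mem (by simpa using h.symm), hreg]

theorem card_ball3 (hreg : ∀ v, (G.neighborFinset v).card = 3) (s : V) :
    (ball3 G s).card ≤ 22 := by
  unfold ball3
  have h1 : ((G.neighborFinset s).biUnion fun a =>
      insert a ((Nx G s a).biUnion fun b => insert b (Nx G a b))).card ≤ 3 * 7 := by
    rw [← hreg s]
    apply Finset.card_biUnion_le_card_mul
    intro a ha
    rw [SimpleGraph.mem_neighborFinset] at ha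
    refine (Finset.card_insert_le _ _).trans ?_
    have h2 : ((Nx G s a).biUnion fun b => insert b (Nx G a b)).card ≤ 2 * 3 := by
      rw [← card_Nx G hreg ha]
      apply Finset.card_biUnion_le_card_mul
      intro b hb
      have hab : G.Adj a b := by
        unfold Nx at hb
        rw [Finset.mem_erase, SimpleGraph.mem_neighborFinset] at hb
        exact hb.2
      refine (Finset.card_insert_le _ _).trans ?_
      rw [card_Nx G hreg hab]
    omega
  refine (Finset.card_insert_le _ _).trans ?_
  omega

theorem mem_ball3 {s y : V} (p : G.Walk s y) (hp : p.length ≤ 3) : y ∈ ball3 G s := by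
  unfold ball3
  have hself : s ∈ insert s ((G.neighborFinset s).biUnion fun a =>
      insert a ((Nx G s a).biUnion fun b => insert b (Nx G a b))) := Finset.mem_insert_self _ _
  have hone : ∀ a, G.Adj s a → a ∈ insert s ((G.neighborFinset s).biUnion fun a =>
      insert a ((Nx G s a).biUnion fun b => insert b (Nx G a b))) := by
    intro a ha
    refine Finset.mem_insert_of_mem (Finset.mem_biUnion.mpr ⟨a, by simpa using ha, ?_⟩)
    exact Finset.mem_insert_self _ _
  have htwo : ∀ a b, G.Adj s a → G.Adj a b → b ∈ insert s ((G.neighborFinset s).biUnion fun a =>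
      insert a ((Nx G s a).biUnion fun b => insert b (Nx G a b))) := by
    intro a b ha hb
    by_cases hbs : b = s
    · rw [hbs]; exact hself
    · refine Finset.mem_insert_of_mem (Finset.mem_biUnion.mpr ⟨a, by simpa using ha, ?_⟩)
      refine Finset.mem_insert_of_mem (Finset.mem_biUnion.mpr ⟨b, ?_, ?_⟩)
      · unfold Nx
        rw [Finset.mem_erase, SimpleGraph.mem_neighborFinset]
        exact ⟨hbs, hb⟩
      · exact Finset.mem_insert_self _ _
  cases p with
  | nil => exact hself
  | @cons _ a _ ha p =>
    cases p with
    | nil => exact hone _ ha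
    | @cons _ b _ hb p =>
      cases p with
      | nil => exact htwo _ _ ha hb
      | @cons _ c _ hc p =>
        cases p with
        | nil =>
          by_cases hbs : b = s
          · subst hbs; exact hone _ hc
          · by_cases hya : y = a
            · subst hya; exact hone _ ha
            · refine Finset.mem_insert_of_mem (Finset.mem_biUnion.mpr ⟨a, by simpa using ha, ?_⟩)
              refine Finset.mem_insert_of_mem (Finset.mem_biUnion.mpr ⟨b, ?_, ?_⟩)
              · unfold Nx
                rw [Finset.mem_erase, SimpleGraph.mem_neighborFinset]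
                exact ⟨hbs, hb⟩
              · refine Finset.mem_insert_of_mem ?_
                unfold Nx
                rw [Finset.mem_erase, SimpleGraph.mem_neighborFinset]
                exact ⟨hya, hc⟩
        | cons hd p =>
          simp only [SimpleGraph.Walk.length_cons] at hp
          omega

end ball

/-- every vertex set `X` contains a set of pairwise far vertices of size at least `|X| / 22` -/
theorem exists_far_subset [Finite V] (G : SimpleGraph V)
    (hreg : ∀ v, (G.neighborSet v).ncard = 3) (X : Set V) :
    ∃ S ⊆ X, (∀ u ∈ S, ∀ v ∈ S, u ≠ v → Far G u v) ∧ X.ncard ≤ 22 * S.ncard := by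
  classical
  have := Fintype.ofFinite V
  have hreg' : ∀ v, (G.neighborFinset v).card = 3 := by
    intro v
    rw [← hreg v, G.card_neighborFinset_eq_degree, ← SimpleGraph.card_neighborSet_eq_degree,
      Set.ncard_eq_toFinset_card', Set.toFinset_card]
  let X' : Finset V := X.toFinset
  let P : Finset V → Prop := fun S => ∀ u ∈ S, ∀ v ∈ S, u ≠ v → Far G u v
  obtain ⟨S, hS, hmax⟩ := Finset.exists_max_image (X'.powerset.filter P) Finset.card
    ⟨∅, by simp [P]⟩
  rw [Finset.mem_filter, Finset.mem_powerset] at hS
  have hcover : X' ⊆ S.biUnion (ball3 G) := by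
    intro x hx
    by_contra hno
    have hfar : ∀ s ∈ S, Far G s x := by
      intro s hs p
      by_contra hp
      exact hno (Finset.mem_biUnion.mpr ⟨s, hs, mem_ball3 G p (by omega)⟩)
    have hxS : x ∉ S := by
      intro h
      have := hfar x h SimpleGraph.Walk.nil
      simp at this
    have hins : insert x S ∈ X'.powerset.filter P := by
      rw [Finset.mem_filter, Finset.mem_powerset]
      refine ⟨Finset.insert_subset hx hS.1, ?_⟩
      intro u hu v hv huv
      rw [Finset.mem_insert] at hu hv
      rcases hu with rfl | hu <;> rcases hv with rfl | hv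
      · exact absurd rfl huv
      · exact (hfar v hv).symm
      · exact hfar u hu
      · exact hS.2 u hu v hv huv
    have := hmax _ hins
    rw [Finset.card_insert_of_notMem hxS] at this
    omega
  refine ⟨(S : Set V), ?_, ?_, ?_⟩
  · intro x hx
    have := hS.1 hx
    simpa [X'] using this
  · intro u hu v hv huv
    exact hS.2 u hu v hv huv
  · rw [Set.ncard_coe_finset, Set.ncard_eq_toFinset_card']
    calc X'.card ≤ (S.biUnion (ball3 G)).card := Finset.card_le_card hcover
      _ ≤ S.card * 22 := Finset.card_biUnion_le_card_mul _ _ _ (fun s _ => card_ball3 G hreg' s)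
      _ = 22 * S.card := Nat.mul_comm _ _

end Pool.Agent.CubicFree
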