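import Mathlib

set_option autoImplicit false

/-!
# Straight-line drawings are stable under small perturbations
-/

namespace Pool.Agent.CubicFree

/-- straight-line crossing-free drawing -/
structure IsDrawing {V : Type*} (G : SimpleGraph V) (φ : V → ℝ × ℝ) : Prop where
  inj : Function.Injective φ
  vertex : ∀ u v w, G.Adj u v → w ≠ u → w ≠ v → φ w ∉ segment ℝ (φ u) (φ v)
  edge : ∀ u v u' v', G.Adj u v → G.Adj u' v' → s(u, v) ≠ s(u', v') →
    ∀ p, p ∈ segment ℝ (φ u) (φ v) → p ∈ segment ℝ (φ u') (φ v') →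
    ∃ w, (w = u ∨ w = v) ∧ (w = u' ∨ w = v') ∧ p = φ w

theorem isClosed_mem_segment :
    IsClosed {x : (ℝ × ℝ) × (ℝ × ℝ) × (ℝ × ℝ) | x.1 ∈ segment ℝ x.2.1 x.2.2} := by
  have h : {x : (ℝ × ℝ) × (ℝ × ℝ) × (ℝ × ℝ) | x.1 ∈ segment ℝ x.2.1 x.2.2} =
      Prod.snd '' {y : unitInterval × ((ℝ × ℝ) × (ℝ × ℝ) × (ℝ × ℝ)) |
        y.2.1 = y.2.2.1 + (y.1 : ℝ) • (y.2.2.2 - y.2.2.1)} := by
    ext x
    constructor
    · intro hx
      change x.1 ∈ segment ℝ x.2.1 x.2.2 at hx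
      rw [segment_eq_image'] at hx
      obtain ⟨t, ht, he⟩ := hx
      exact ⟨(⟨t, ht⟩, x), he.symm, rfl⟩
    · rintro ⟨⟨t, y⟩, hy, rfl⟩
      change y.1 = y.2.1 + (t : ℝ) • (y.2.2 - y.2.1) at hy
      change y.1 ∈ segment ℝ y.2.1 y.2.2
      rw [segment_eq_image']
      exact ⟨t, t.2, hy.symm⟩
  rw [h]
  apply isClosedMap_snd_of_compactSpace
  exact isClosed_eq (by fun_prop) (by fun_prop)

theorem isClosed_segments_meet :
    IsClosed {x : ((ℝ × ℝ) × (ℝ × ℝ)) × (ℝ × ℝ) × (ℝ × ℝ) |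
      ∃ p, p ∈ segment ℝ x.1.1 x.1.2 ∧ p ∈ segment ℝ x.2.1 x.2.2} := by
  have h : {x : ((ℝ × ℝ) × (ℝ × ℝ)) × (ℝ × ℝ) × (ℝ × ℝ) |
      ∃ p, p ∈ segment ℝ x.1.1 x.1.2 ∧ p ∈ segment ℝ x.2.1 x.2.2} =
      Prod.snd '' {y : (unitInterval × unitInterval) ×
        (((ℝ × ℝ) × (ℝ × ℝ)) × (ℝ × ℝ) × (ℝ × ℝ)) |
        y.2.1.1 + (y.1.1 : ℝ) • (y.2.1.2 - y.2.1.1) =
          y.2.2.1 + (y.1.2 : ℝ) • (y.2.2.2 - y.2.2.1)} := by
    ext x
    constructor
    · rintro ⟨p, hp, hp'⟩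
      rw [segment_eq_image'] at hp hp'
      obtain ⟨t, ht, he⟩ := hp
      obtain ⟨s, hs, he'⟩ := hp'
      exact ⟨((⟨t, ht⟩, ⟨s, hs⟩), x), he.trans he'.symm, rfl⟩
    · rintro ⟨⟨⟨t, s⟩, y⟩, hy, rfl⟩
      change y.1.1 + (t : ℝ) • (y.1.2 - y.1.1) = y.2.1 + (s : ℝ) • (y.2.2 - y.2.1) at hy
      refine ⟨y.1.1 + (t : ℝ) • (y.1.2 - y.1.1), ?_, ?_⟩
      · rw [segment_eq_image']
        exact ⟨t, t.2, rfl⟩
      · rw [segment_eq_image']
        exact ⟨s, s.2, hy.symm⟩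
  rw [h]
  apply isClosedMap_snd_of_compactSpace
  exact isClosed_eq (by fun_prop) (by fun_prop)

theorem adjacent_segments {a b c p : ℝ × ℝ} (h1 : c ∉ segment ℝ a b) (h2 : b ∉ segment ℝ a c)
    (hp1 : p ∈ segment ℝ a b) (hp2 : p ∈ segment ℝ a c) : p = a := by
  rw [segment_eq_image'] at *
  obtain ⟨s, ⟨hs0, hs1⟩, hs⟩ := hp1
  obtain ⟨t, ⟨ht0, ht1⟩, ht⟩ := hp2
  simp only at hs ht
  rcases hs0.eq_or_lt with rfl | hs0
  · rw [← hs]; simp
  rcases ht0.eq_or_lt with rfl | ht0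
  · rw [← ht]; simp
  exfalso
  have he : s • (b - a) = t • (c - a) := by
    have := hs.trans ht.symm
    exact add_left_cancel this
  rcases le_total s t with hst | hst
  · apply h1
    refine ⟨s / t, ⟨by positivity, (div_le_one ht0).mpr hst⟩, ?_⟩
    simp only
    have : (s / t) • (b - a) = c - a := by
      rw [div_eq_inv_mul, mul_smul, he, smul_smul, inv_mul_cancel₀ ht0.ne', one_smul]
    rw [this]; simp
  · apply h2
    refine ⟨t / s, ⟨by positivity, (div_le_one hs0).mpr hst⟩, ?_⟩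
    simp only
    have : (t / s) • (c - a) = b - a := by
      rw [div_eq_inv_mul, mul_smul, ← he, smul_smul, inv_mul_cancel₀ hs0.ne', one_smul]
    rw [this]; simp

/-- a criterion with open conditions -/
theorem isDrawing_iff {V : Type*} (G : SimpleGraph V) (φ : V → ℝ × ℝ) :
    IsDrawing G φ ↔
      (∀ u v, u ≠ v → φ u ≠ φ v) ∧
      (∀ u v w, G.Adj u v → w ≠ u → w ≠ v → φ w ∉ segment ℝ (φ u) (φ v)) ∧
      (∀ u v u' v', G.Adj u v → G.Adj u' v' → u ≠ u' → u ≠ v' → v ≠ u' → v ≠ v' →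
        ¬ ∃ p, p ∈ segment ℝ (φ u) (φ v) ∧ p ∈ segment ℝ (φ u') (φ v')) := by
  constructor
  · intro h
    refine ⟨fun u v huv he => huv (h.inj he), h.vertex, ?_⟩
    intro u v u' v' huv huv' h1 h2 h3 h4 ⟨p, hp, hp'⟩
    obtain ⟨w, hw, hw', -⟩ := h.edge u v u' v' huv huv'
      (by rw [Ne, Sym2.eq_iff]; rintro (⟨h, -⟩ | ⟨h, -⟩); exacts [h1 h, h2 h]) p hp hp'
    rcases hw with rfl | rfl <;> rcases hw' with h | h
    exacts [h1 h, h2 h, h3 h, h4 h]
  · rintro ⟨hinj, hvert, hdisj⟩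
    -- two distinct edges at a common vertex
    have key : ∀ a b c, G.Adj a b → G.Adj a c → b ≠ c → ∀ p, p ∈ segment ℝ (φ a) (φ b) →
        p ∈ segment ℝ (φ a) (φ c) → p = φ a := by
      intro a b c hab hac hbc p hp hp'
      exact adjacent_segments (hvert a b c hab hac.ne' hbc.symm)
        (hvert a c b hac hab.ne' hbc) hp hp'
    refine ⟨fun u v he => by_contra fun huv => hinj u v huv he, hvert, ?_⟩
    intro u v u' v' huv huv' hne p hp hp'
    by_cases h1 : u = u'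
    · subst h1
      refine ⟨u, Or.inl rfl, Or.inl rfl, key u v v' huv huv' ?_ p hp hp'⟩
      rintro rfl; exact hne rfl
    by_cases h2 : u = v'
    · subst h2
      rw [segment_symm] at hp'
      refine ⟨u, Or.inl rfl, Or.inr rfl, key u v u' huv huv'.symm ?_ p hp hp'⟩
      rintro rfl; exact hne Sym2.eq_swap
    by_cases h3 : v = u'
    · subst h3
      rw [segment_symm] at hp
      refine ⟨v, Or.inr rfl, Or.inl rfl, key v u v' huv.symm huv' ?_ p hp hp'⟩
      rintro rfl; exact hne Sym2.eq_swap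
    by_cases h4 : v = v'
    · subst h4
      rw [segment_symm] at hp hp'
      refine ⟨v, Or.inr rfl, Or.inr rfl, key v u u' huv.symm huv'.symm ?_ p hp hp'⟩
      rintro rfl; exact hne rfl
    exact absurd ⟨p, hp, hp'⟩ (hdisj u v u' v' huv huv' h1 h2 h3 h4)

theorem isOpen_isDrawing {V : Type*} [Finite V] (G : SimpleGraph V) :
    IsOpen {φ : V → ℝ × ℝ | IsDrawing G φ} := by
  have h : {φ : V → ℝ × ℝ | IsDrawing G φ} =
      {φ | ∀ u v, u ≠ v → φ u ≠ φ v} ∩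
      ({φ | ∀ u v w, G.Adj u v → w ≠ u → w ≠ v → φ w ∉ segment ℝ (φ u) (φ v)} ∩
      {φ | ∀ u v u' v', G.Adj u v → G.Adj u' v' → u ≠ u' → u ≠ v' → v ≠ u' → v ≠ v' →
        ¬ ∃ p, p ∈ segment ℝ (φ u) (φ v) ∧ p ∈ segment ℝ (φ u') (φ v')}) := by
    ext φ
    exact isDrawing_iff G φ
  rw [h]
  refine IsOpen.inter ?_ (IsOpen.inter ?_ ?_)
  · simp only [Set.ofPred_forall]
    refine isOpen_iInter_of_finite fun u => isOpen_iInter_of_finite fun v =>
      isOpen_iInter_of_finite fun _ => ?_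
    exact isOpen_ne_fun (continuous_apply u) (continuous_apply v)
  · simp only [Set.ofPred_forall]
    refine isOpen_iInter_of_finite fun u => isOpen_iInter_of_finite fun v =>
      isOpen_iInter_of_finite fun w => isOpen_iInter_of_finite fun _ =>
      isOpen_iInter_of_finite fun _ => isOpen_iInter_of_finite fun _ => ?_
    have hc : Continuous fun φ : V → ℝ × ℝ => (φ w, φ u, φ v) := by fun_prop
    exact IsOpen.preimage hc isClosed_mem_segment.isOpen_compl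
  · simp only [Set.ofPred_forall]
    refine isOpen_iInter_of_finite fun u => isOpen_iInter_of_finite fun v =>
      isOpen_iInter_of_finite fun u' => isOpen_iInter_of_finite fun v' =>
      isOpen_iInter_of_finite fun _ => isOpen_iInter_of_finite fun _ =>
      isOpen_iInter_of_finite fun _ => isOpen_iInter_of_finite fun _ =>
      isOpen_iInter_of_finite fun _ => isOpen_iInter_of_finite fun _ => ?_
    have hc : Continuous fun φ : V → ℝ × ℝ => ((φ u, φ v), φ u', φ v') := by fun_prop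
    exact IsOpen.preimage hc isClosed_segments_meet.isOpen_compl

/-- drawings are stable under small perturbations -/
theorem isDrawing_open {V : Type*} [Finite V] (G : SimpleGraph V) {φ : V → ℝ × ℝ}
    (h : IsDrawing G φ) :
    ∃ ε > 0, ∀ ψ : V → ℝ × ℝ, (∀ v, dist (φ v) (ψ v) < ε) → IsDrawing G ψ := by
  have := Fintype.ofFinite V
  obtain ⟨ε, hε, hb⟩ := Metric.isOpen_iff.mp (isOpen_isDrawing G) φ h
  refine ⟨ε, hε, fun ψ hψ => hb ?_⟩
  rw [Metric.mem_ball, dist_comm]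
  exact (dist_pi_lt_iff hε).mpr hψ

end Pool.Agent.CubicFree
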