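import Mathlib

set_option autoImplicit false

/-!
# Euler's formula for a rotation system from the surjectivity of the boundary map

Let `σ` be a rotation system of a connected graph `G`, and suppose that every even subgraph of `G`
is the boundary of a set of faces, that is, for every `z : darts → ZMod 2` with `z d.symm = z d` and
vanishing vertex sums there is a function `g` on the darts, constant on the cycles of
`d ↦ σ d.symm`, with `g d + g d.symm = z d`.  Then `V - E + F = 2`.
-/

namespace Pool.Agent.CubicFree

open Finset Module

variable {V : Type*}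

theorem perm_apply_inv_self {α : Type*} (f : Equiv.Perm α) (x : α) : f (f⁻¹ x) = x :=
  f.apply_symm_apply x

/-- the reversal of darts as a permutation -/
def symmPerm (G : SimpleGraph V) : Equiv.Perm G.Dart :=
  SimpleGraph.Dart.symm_involutive.toPerm

@[simp] theorem symmPerm_apply (G : SimpleGraph V) (d : G.Dart) : symmPerm G d = d.symm := rfl

variable [Fintype V] [DecidableEq V] (G : SimpleGraph V) [DecidableRel G.Adj]

/-- boundary of an edge set -/
def bdry : (G.edgeSet → ZMod 2) →ₗ[ZMod 2] (V → ZMod 2) where
  toFun y v := ∑ d : G.Dart with d.fst = v, y ⟨d.edge, d.edge_mem⟩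
  map_add' y y' := by
    ext v
    simp only [Pi.add_apply, Finset.sum_add_distrib]
  map_smul' c y := by
    ext v
    simp only [Pi.smul_apply, smul_eq_mul, Finset.mul_sum, RingHom.id_apply]

/-- the sum functional -/
def sumF : (V → ZMod 2) →ₗ[ZMod 2] ZMod 2 where
  toFun y := ∑ v, y v
  map_add' y y' := by simp [Finset.sum_add_distrib]
  map_smul' c y := by simp [Finset.mul_sum]

theorem zmod2_add_self (a : ZMod 2) : a + a = 0 := by revert a; decide

theorem sum_bdry (y : G.edgeSet → ZMod 2) : ∑ v, bdry G y v = 0 := by
  show ∑ v, ∑ d : G.Dart with d.fst = v, y ⟨d.edge, d.edge_mem⟩ = 0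
  rw [Finset.sum_fiberwise]
  refine Finset.sum_involution (fun d _ => d.symm) ?_ ?_ ?_ ?_
  · intro d _
    have : (⟨d.symm.edge, d.symm.edge_mem⟩ : G.edgeSet) = ⟨d.edge, d.edge_mem⟩ :=
      Subtype.ext d.edge_symm
    rw [this]
    exact zmod2_add_self _
  · intro d _ _
    exact d.symm_ne
  · intro d _
    exact mem_univ _
  · intro d _
    exact d.symm_symm

/-- the indicator of a vertex -/
def dv (u : V) : V → ZMod 2 := fun v => if v = u then 1 else 0

theorem bdry_edge {u v : V} (h : G.Adj u v) : dv u + dv v ∈ LinearMap.range (bdry G) := by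
  refine ⟨fun e => if (e : Sym2 V) = s(u, v) then 1 else 0, ?_⟩
  ext w
  show ∑ d : G.Dart with d.fst = w, (if d.edge = s(u, v) then (1 : ZMod 2) else 0) = _
  simp only [Pi.add_apply, dv]
  rw [Finset.sum_filter]
  have h1 : ∀ d : G.Dart, (if d.fst = w then (if d.edge = s(u, v) then (1 : ZMod 2) else 0) else 0) =
      (if d = ⟨(u, v), h⟩ then (if w = u then 1 else 0) else 0) +
      (if d = ⟨(v, u), h.symm⟩ then (if w = v then 1 else 0) else 0) := by
    intro d
    by_cases hd : d.edge = s(u, v)
    · rw [SimpleGraph.dart_edge_eq_mk'_iff] at hd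
      rcases hd with hd | hd
      · have : d = ⟨(u, v), h⟩ := SimpleGraph.Dart.ext _ _ hd
        subst this
        have hne : (⟨(u, v), h⟩ : G.Dart) ≠ ⟨(v, u), h.symm⟩ := by
          intro he
          have := congrArg (fun d : G.Dart => d.fst) he
          exact h.ne this
        rw [if_pos rfl, if_neg hne, add_zero]
        by_cases hw : w = u
        · subst hw; simp
        · rw [if_neg hw, if_neg (fun h => hw h.symm)]
      · have : d = ⟨(v, u), h.symm⟩ := SimpleGraph.Dart.ext _ _ hd
        subst this
        have hne : (⟨(v, u), h.symm⟩ : G.Dart) ≠ ⟨(u, v), h⟩ := by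
          intro he
          have := congrArg (fun d : G.Dart => d.fst) he
          exact h.ne this.symm
        rw [if_neg hne, if_pos rfl, zero_add]
        by_cases hw : w = v
        · subst hw; simp [Sym2.eq_swap]
        · rw [if_neg hw, if_neg (fun h => hw h.symm)]
    · have h2 : d ≠ ⟨(u, v), h⟩ := by rintro rfl; exact hd rfl
      have h3 : d ≠ ⟨(v, u), h.symm⟩ := by rintro rfl; exact hd Sym2.eq_swap
      rw [if_neg hd, if_neg h2, if_neg h3]
      simp
  rw [Finset.sum_congr rfl (fun d _ => h1 d), Finset.sum_add_distrib, Finset.sum_ite_eq',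
    Finset.sum_ite_eq']
  simp

theorem range_bdry (hconn : G.Connected) :
    LinearMap.range (bdry G) = LinearMap.ker (sumF (V := V)) := by
  apply le_antisymm
  · rintro _ ⟨y, rfl⟩
    exact sum_bdry G y
  · intro y hy
    have hy' : ∑ v, y v = 0 := hy
    obtain ⟨v0⟩ := hconn.nonempty
    have hpair : ∀ u v, G.Walk u v → dv u + dv v ∈ LinearMap.range (bdry G) := by
      intro u v p
      induction p with
      | @nil u =>
        have : dv u + dv u = 0 := by
          ext w; exact zmod2_add_self _
        rw [this]
        exact Submodule.zero_mem _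
      | @cons u w v h p ih =>
        have : dv u + dv v = (dv u + dv w) + (dv w + dv v) := by
          ext x
          simp only [Pi.add_apply]
          have := zmod2_add_self (dv w x)
          linear_combination -this
        rw [this]
        exact Submodule.add_mem _ (bdry_edge G h) ih
    have : y = ∑ v, y v • (dv v + dv v0) := by
      ext w
      simp only [Finset.sum_apply, Pi.smul_apply, Pi.add_apply, smul_eq_mul, mul_add,
        Finset.sum_add_distrib]
      rw [← Finset.sum_mul, hy', zero_mul, add_zero]
      simp [dv]
    rw [this]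
    refine Submodule.sum_mem _ (fun v _ => Submodule.smul_mem _ _ ?_)
    obtain ⟨p⟩ := hconn.preconnected v v0
    exact hpair v v0 p

theorem finrank_ker_sumF [Nonempty V] :
    finrank (ZMod 2) (LinearMap.ker (sumF (V := V))) + 1 = Fintype.card V := by
  have h := LinearMap.finrank_range_add_finrank_ker (sumF (V := V))
  have hsurj : LinearMap.range (sumF (V := V)) = ⊤ := by
    rw [LinearMap.range_eq_top]
    intro a
    obtain ⟨v0⟩ := ‹Nonempty V›
    refine ⟨a • dv v0, ?_⟩
    show ∑ v, (a • dv v0) v = a
    simp [dv]
  rw [hsurj, finrank_top, Module.finrank_self, Module.finrank_fintype_fun_eq_card] at h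
  omega

theorem finrank_ker_bdry (hconn : G.Connected) :
    finrank (ZMod 2) (LinearMap.ker (bdry G)) + Fintype.card V = Fintype.card G.edgeSet + 1 := by
  have : Nonempty V := hconn.nonempty
  have h := LinearMap.finrank_range_add_finrank_ker (bdry G)
  rw [range_bdry G hconn, Module.finrank_fintype_fun_eq_card] at h
  have h2 := finrank_ker_sumF (V := V)
  omega

/-- edge functions as dart functions -/
def toDart : (G.edgeSet → ZMod 2) →ₗ[ZMod 2] (G.Dart → ZMod 2) where
  toFun y d := y ⟨d.edge, d.edge_mem⟩
  map_add' _ _ := rfl
  map_smul' _ _ := rfl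

theorem toDart_injective : Function.Injective (toDart G) := by
  intro y y' h
  ext ⟨e, he⟩
  induction e using Sym2.ind with
  | _ u v => exact congrFun h ⟨(u, v), he⟩

theorem exists_edge_fun (z : G.Dart → ZMod 2) (hz : ∀ d, z d.symm = z d) :
    ∃ y, toDart G y = z := by
  refine ⟨fun e => z ⟨(Quot.out (e : Sym2 V)), ?_⟩, ?_⟩
  · have := e.2
    have h2 : s((Quot.out (e : Sym2 V)).1, (Quot.out (e : Sym2 V)).2) = (e : Sym2 V) := by
      exact Quot.out_eq _
    rw [← h2] at this
    exact this
  · ext d
    show z _ = z d
    have h2 : s((Quot.out d.edge).1, (Quot.out d.edge).2) = d.edge := Quot.out_eq _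
    have h3 : (⟨(Quot.out d.edge), by
        have := d.edge_mem; rw [← h2] at this; exact this⟩ : G.Dart).edge = d.edge := h2
    rw [SimpleGraph.dart_edge_eq_iff] at h3
    rcases h3 with h3 | h3
    · rw [h3]
    · rw [h3, hz]

section main

variable (σ : Equiv.Perm G.Dart)

/-- the face permutation -/
def faceP : Equiv.Perm G.Dart := σ * symmPerm G

/-- boundary map on face functions -/
def faceB : (Quotient (Equiv.Perm.SameCycle.setoid (faceP G σ)) → ZMod 2) →ₗ[ZMod 2]
    (G.Dart → ZMod 2) where
  toFun h d := h (Quotient.mk _ d) + h (Quotient.mk _ d.symm)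
  map_add' h h' := by ext d; simp only [Pi.add_apply]; ring
  map_smul' c h := by ext d; simp only [Pi.smul_apply, smul_eq_mul, RingHom.id_apply]; ring

end main

theorem euler_of_surj (hconn : G.Connected) (hne : Nonempty G.Dart) (σ : Equiv.Perm G.Dart)
    (h1 : ∀ d, (σ d).fst = d.fst) (h2 : ∀ d e : G.Dart, d.fst = e.fst → σ.SameCycle d e)
    (hsurj : ∀ z : G.Dart → ZMod 2, (∀ d, z d.symm = z d) →
      (∀ v, ∑ d : G.Dart with d.fst = v, z d = 0) →
      ∃ g : G.Dart → ZMod 2, (∀ d, g (σ d.symm) = g d) ∧ ∀ d, g d + g d.symm = z d) :
    Fintype.card V + Nat.card (Quotient (Equiv.Perm.SameCycle.setoid (σ * symmPerm G))) =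
      Fintype.card G.edgeSet + 2 := by
  classical
  change Fintype.card V + Nat.card (Quotient (Equiv.Perm.SameCycle.setoid (faceP G σ))) = _
  rw [Nat.card_eq_fintype_card]
  -- functions invariant under the face permutation descend to the quotient
  have hdesc : ∀ g : G.Dart → ZMod 2, (∀ d, g (σ d.symm) = g d) →
      ∀ d e : G.Dart, (faceP G σ).SameCycle d e → g d = g e := by
    intro g hg d e hde
    have hz : ∀ (k : ℤ) (d : G.Dart), g ((faceP G σ ^ k) d) = g d := by
      intro k
      induction k using Int.induction_on with
      | zero => intro d; simp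
      | succ k ih =>
        intro d
        rw [zpow_add_one, Equiv.Perm.mul_apply, ih]
        exact hg d
      | pred k ih =>
        intro d
        have h3 : (faceP G σ ^ (-(k : ℤ) - 1)) d = (faceP G σ ^ (-(k : ℤ))) ((faceP G σ)⁻¹ d) := by
          rw [zpow_sub_one, Equiv.Perm.mul_apply]
        rw [h3, ih]
        have h4 : g (faceP G σ ((faceP G σ)⁻¹ d)) = g ((faceP G σ)⁻¹ d) := hg _
        rw [perm_apply_inv_self] at h4
        exact h4.symm
    obtain ⟨k, hk⟩ := hde
    rw [← hk, hz]
  have hmk : ∀ d : G.Dart, (Quotient.mk (Equiv.Perm.SameCycle.setoid (faceP G σ)) (σ d.symm)) =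
      Quotient.mk _ d := by
    intro d
    apply Quotient.sound
    show (faceP G σ).SameCycle (σ d.symm) d
    exact (Equiv.Perm.sameCycle_apply_left (f := faceP G σ) (x := d) (y := d)).mpr
      (Equiv.Perm.SameCycle.refl _ _)
  -- kernel
  have hker : finrank (ZMod 2) (LinearMap.ker (faceB G σ)) = 1 := by
    have hk : LinearMap.ker (faceB G σ) = Submodule.span (ZMod 2) {fun _ => (1 : ZMod 2)} := by
      apply le_antisymm
      · intro h hh
        have hh' : ∀ d : G.Dart, h (Quotient.mk _ d) + h (Quotient.mk _ d.symm) = 0 :=
          fun d => congrFun hh d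
        have hsym : ∀ d : G.Dart, h (Quotient.mk _ d.symm) = h (Quotient.mk _ d) := by
          intro d
          have h3 := hh' d
          have h4 := zmod2_add_self (h (Quotient.mk _ d))
          linear_combination h3 - h4
        have hsig : ∀ d : G.Dart, h (Quotient.mk _ (σ d)) = h (Quotient.mk _ d) := by
          intro d
          have h3 := hmk d.symm
          rw [SimpleGraph.Dart.symm_symm] at h3
          rw [h3, hsym]
        have hsc : ∀ d e : G.Dart, σ.SameCycle d e →
            h (Quotient.mk _ d) = h (Quotient.mk _ e) := by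
          intro d e hde
          have hz : ∀ (k : ℤ) (d : G.Dart), h (Quotient.mk _ ((σ ^ k) d)) = h (Quotient.mk _ d) := by
            intro k
            induction k using Int.induction_on with
            | zero => intro d; simp
            | succ k ih =>
              intro d
              rw [zpow_add_one, Equiv.Perm.mul_apply, ih]
              exact hsig d
            | pred k ih =>
              intro d
              have h3 : (σ ^ (-(k : ℤ) - 1)) d = (σ ^ (-(k : ℤ))) (σ⁻¹ d) := by
                rw [zpow_sub_one, Equiv.Perm.mul_apply]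
              rw [h3, ih]
              have h4 := hsig (σ⁻¹ d)
              rw [perm_apply_inv_self] at h4
              exact h4.symm
          obtain ⟨k, hk⟩ := hde
          rw [← hk, hz]
        -- all darts have the same value
        have hwalk : ∀ u v (_ : G.Walk u v), ∀ d e : G.Dart, d.fst = u → e.fst = v →
            h (Quotient.mk _ d) = h (Quotient.mk _ e) := by
          intro u v p
          induction p with
          | nil =>
            intro d e hd he
            exact hsc d e (h2 d e (hd.trans he.symm))
          | @cons u w v hadj p ih =>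
            intro d e hd he
            have e1 : h (Quotient.mk _ d) = h (Quotient.mk _ (⟨(u, w), hadj⟩ : G.Dart)) :=
              hsc _ _ (h2 _ _ hd)
            have e2 := hsym (⟨(u, w), hadj⟩ : G.Dart)
            rw [e1, ← e2]
            exact ih _ e rfl he
        obtain ⟨d0⟩ := hne
        rw [Submodule.mem_span_singleton]
        refine ⟨h (Quotient.mk _ d0), ?_⟩
        ext q
        induction q using Quotient.inductionOn with
        | _ d =>
          simp only [Pi.smul_apply, smul_eq_mul, mul_one]
          obtain ⟨p⟩ := hconn.preconnected d0.fst d.fst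
          exact hwalk _ _ p d0 d rfl rfl
      · rw [Submodule.span_singleton_le_iff_mem]
        ext d
        exact zmod2_add_self 1
    rw [hk]
    apply finrank_span_singleton
    intro h0
    obtain ⟨d0⟩ := hne
    have := congrFun h0 (Quotient.mk _ d0)
    simp at this
  -- range
  have hrange : LinearMap.range (faceB G σ) =
      Submodule.map (toDart G) (LinearMap.ker (bdry G)) := by
    apply le_antisymm
    · rintro _ ⟨h, rfl⟩
      have hz : ∀ d : G.Dart, faceB G σ h d.symm = faceB G σ h d := by
        intro d
        show h (Quotient.mk _ d.symm) + h (Quotient.mk _ d.symm.symm) =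
          h (Quotient.mk _ d) + h (Quotient.mk _ d.symm)
        rw [SimpleGraph.Dart.symm_symm, add_comm]
      obtain ⟨y, hy⟩ := exists_edge_fun G (faceB G σ h) hz
      refine ⟨y, ?_, hy⟩
      show bdry G y = 0
      ext v
      show ∑ d : G.Dart with d.fst = v, toDart G y d = 0
      rw [hy]
      show ∑ d : G.Dart with d.fst = v, (h (Quotient.mk _ d) + h (Quotient.mk _ d.symm)) = 0
      rw [Finset.sum_add_distrib]
      have h3 : ∑ d : G.Dart with d.fst = v, h (Quotient.mk _ d.symm) =
          ∑ d : G.Dart with d.fst = v, h (Quotient.mk _ d) := by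
        have h4 : ∀ d : G.Dart, h (Quotient.mk _ d.symm) = h (Quotient.mk _ (σ d)) := by
          intro d
          have h5 := hmk d.symm
          rw [SimpleGraph.Dart.symm_symm] at h5
          rw [h5]
        rw [Finset.sum_congr rfl (fun d _ => h4 d)]
        refine Finset.sum_bij (fun d _ => σ d) ?_ ?_ ?_ ?_
        · intro d hd
          rw [Finset.mem_filter] at hd ⊢
          exact ⟨mem_univ _, (h1 d).trans hd.2⟩
        · intro d _ e _ h; exact σ.injective h
        · intro d hd
          rw [Finset.mem_filter] at hd
          refine ⟨σ⁻¹ d, ?_, ?_⟩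
          · rw [Finset.mem_filter]
            refine ⟨mem_univ _, ?_⟩
            have := h1 (σ⁻¹ d)
            rw [perm_apply_inv_self] at this
            rw [← this]; exact hd.2
          · exact perm_apply_inv_self σ d
        · intro d _; rfl
      rw [h3]
      exact zmod2_add_self _
    · rintro _ ⟨y, hy, rfl⟩
      have hy' : bdry G y = 0 := hy
      obtain ⟨g, hg1, hg2⟩ := hsurj (toDart G y)
        (fun d => by
          show y _ = y _
          congr 1
          exact Subtype.ext d.edge_symm)
        (fun v => congrFun hy' v)
      refine ⟨Quotient.lift g (fun d e hde => hdesc g hg1 d e hde), ?_⟩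
      ext d
      exact hg2 d
  have hrn := LinearMap.finrank_range_add_finrank_ker (faceB G σ)
  have hmapr : finrank (ZMod 2) (Submodule.map (toDart G) (LinearMap.ker (bdry G))) =
      finrank (ZMod 2) (LinearMap.ker (bdry G)) :=
    (LinearEquiv.finrank_eq
      (Submodule.equivMapOfInjective (toDart G) (toDart_injective G) (LinearMap.ker (bdry G)))).symm
  rw [hker, hrange, hmapr, Module.finrank_fintype_fun_eq_card] at hrn
  have hkb := finrank_ker_bdry G hconn
  omega

end Pool.Agent.CubicFree
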