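import Mathlib

set_option autoImplicit false

/-!
# A rotation from a linear order on the darts at each vertex
-/

namespace Pool.Agent.CubicFree

open Finset

theorem finRotate_trans (n : ℕ) (i j : Fin n) : ∃ k : ℕ, (finRotate n ^ k) i = j := by
  cases n with
  | zero => exact i.elim0
  | succ n =>
    have h : ∀ k : ℕ, ((finRotate (n + 1) ^ k) i).val = (i.val + k) % (n + 1) := by
      intro k
      induction k with
      | zero => simp [Nat.mod_eq_of_lt i.2]
      | succ k ih =>
        rw [pow_succ', Equiv.Perm.mul_apply, finRotate_apply, Fin.val_add, ih, Fin.val_one']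
        rw [← Nat.add_mod, Nat.add_assoc]
    refine ⟨n + 1 - i.val + j.val, Fin.ext ?_⟩
    rw [h]
    have h1 := i.2
    have h2 := j.2
    have h3 : i.val + (n + 1 - i.val + j.val) = j.val + (n + 1) := by omega
    rw [h3, Nat.add_mod_right, Nat.mod_eq_of_lt h2]

theorem finRotate_sum (n : ℕ) (z : Fin n → ZMod 2) (hz : ∑ j, z j = 0) (i : Fin n) :
    (∑ j with finRotate n i < j, z j) + z (finRotate n i) = ∑ j with i < j, z j := by
  cases n with
  | zero => exact i.elim0
  | succ n =>
    rw [finRotate_apply]
    by_cases hi : i = Fin.last n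
    · subst hi
      rw [Fin.last_add_one]
      have h1 : (∑ j with Fin.last n < j, z j) = 0 := by
        apply Finset.sum_eq_zero
        intro j hj
        rw [Finset.mem_filter] at hj
        exact absurd hj.2 (not_lt.mpr (Fin.le_last j))
      rw [h1, ← hz]
      have h2 : (univ : Finset (Fin (n + 1))) = insert 0 (univ.filter fun j => 0 < j) := by
        ext j
        simp only [mem_univ, mem_insert, mem_filter, true_and, true_iff]
        rcases eq_or_ne j 0 with h | h
        · exact Or.inl h
        · exact Or.inr (Fin.pos_of_ne_zero h)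
      conv_rhs => rw [h2]
      rw [Finset.sum_insert (by simp), add_comm]
    · have hlt : i < Fin.last n := lt_of_le_of_ne (Fin.le_last i) hi
      have hv : (i + 1).val = i.val + 1 := Fin.val_add_one_of_lt hlt
      have h2 : (univ.filter fun j => i < j) = insert (i + 1) (univ.filter fun j => i + 1 < j) := by
        ext j
        simp only [mem_insert, mem_filter, mem_univ, true_and, Fin.lt_def, Fin.ext_iff, hv]
        omega
      rw [h2, Finset.sum_insert (by simp), add_comm]

theorem exists_rotation {D V K : Type*} [Fintype D] [DecidableEq V] [LinearOrder K] (fst : D → V)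
    (key : D → K) (hkey : ∀ d e, fst d = fst e → key d = key e → d = e) :
    ∃ σ : Equiv.Perm D, (∀ d, fst (σ d) = fst d) ∧ (∀ d e, fst d = fst e → σ.SameCycle d e) ∧
      ∀ z : D → ZMod 2, (∀ v, ∑ d with fst d = v, z d = 0) →
        ∀ d, (∑ c with fst c = fst d ∧ key (σ d) < key c, z c) + z (σ d) =
          ∑ c with fst c = fst d ∧ key d < key c, z c := by
  classical
  have hinj : ∀ v, Function.Injective (fun d : {d // fst d = v} => key d) := by
    intro v d e h
    exact Subtype.ext (hkey d e (d.2.trans e.2.symm) h)
  let _ : ∀ v, LinearOrder {d // fst d = v} := fun v => LinearOrder.lift' _ (hinj v)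
  let n : V → ℕ := fun v => Fintype.card {d // fst d = v}
  let e : ∀ v, Fin (n v) ≃o {d // fst d = v} := fun v => Fintype.orderIsoFinOfCardEq _ rfl
  let τ : ∀ v, Equiv.Perm {d // fst d = v} := fun v =>
    (e v).toEquiv.symm.trans ((finRotate (n v)).trans (e v).toEquiv)
  let σ : Equiv.Perm D := (Equiv.sigmaFiberEquiv fst).symm.trans
    ((Equiv.sigmaCongrRight τ).trans (Equiv.sigmaFiberEquiv fst))
  have hσ : ∀ v (d : {d // fst d = v}), σ d = (τ v d : D) := by
    rintro v ⟨d, rfl⟩
    rfl
  have hσp : ∀ v (k : ℕ) (d : {d // fst d = v}), (σ ^ k) d = (((τ v) ^ k) d : D) := by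
    intro v k
    induction k with
    | zero => intro d; rfl
    | succ k ih =>
      intro d
      rw [pow_succ', pow_succ', Equiv.Perm.mul_apply, Equiv.Perm.mul_apply, ih, hσ]
  have hτp : ∀ v (k : ℕ) (i : Fin (n v)), ((τ v) ^ k) (e v i) = e v ((finRotate (n v) ^ k) i) := by
    intro v k
    induction k with
    | zero => intro i; rfl
    | succ k ih =>
      intro i
      rw [pow_succ', pow_succ', Equiv.Perm.mul_apply, Equiv.Perm.mul_apply, ih]
      show e v (finRotate (n v) ((e v).symm (e v _))) = _
      rw [OrderIso.symm_apply_apply]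
  refine ⟨σ, ?_, ?_, ?_⟩
  · intro d
    have := hσ (fst d) ⟨d, rfl⟩
    rw [this]
    exact (τ (fst d) ⟨d, rfl⟩).2
  · intro d d' hdd'
    obtain ⟨i, hi⟩ := (e (fst d')).surjective ⟨d, hdd'⟩
    obtain ⟨j, hj⟩ := (e (fst d')).surjective ⟨d', rfl⟩
    obtain ⟨k, hk⟩ := finRotate_trans _ i j
    refine ⟨k, ?_⟩
    rw [zpow_natCast]
    have := hσp (fst d') k ⟨d, hdd'⟩
    rw [this, ← hi, hτp, hk, hj]
  · intro z hz d
    obtain ⟨i, hi⟩ := (e (fst d)).surjective ⟨d, rfl⟩
    have hsub : ∀ (P : D → Prop) [DecidablePred P], ∑ c with fst c = fst d ∧ P c, z c =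
        ∑ j : Fin (n (fst d)), if P (e (fst d) j) then z (e (fst d) j) else 0 := by
      intro P _
      have h1 : ∑ c with fst c = fst d ∧ P c, z c =
          ∑ c ∈ univ.filter (fun c => fst c = fst d), if P c then z c else 0 := by
        rw [← Finset.filter_filter, Finset.sum_filter]
      rw [h1, Finset.sum_subtype (univ.filter (fun c => fst c = fst d)) (p := fun c => fst c = fst d)
        (by intro c; simp)]
      exact (Equiv.sum_comp (e (fst d)).toEquiv
        (fun c : {c // fst c = fst d} => if P c then z c else 0)).symm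
    have hlt : ∀ a j : Fin (n (fst d)), key (e (fst d) a) < key (e (fst d) j) ↔ a < j := by
      intro a j
      exact (e (fst d)).lt_iff_lt
    have hd : (e (fst d) i : D) = d := congrArg Subtype.val hi
    have hsd : (e (fst d) (finRotate _ i) : D) = σ d := by
      rw [hσ (fst d) ⟨d, rfl⟩, ← hi]
      show _ = ((e (fst d) (finRotate (n (fst d)) ((e (fst d)).symm (e (fst d) i))) :
        {c // fst c = fst d}) : D)
      rw [OrderIso.symm_apply_apply]
    have hsum0 : ∑ j : Fin (n (fst d)), z (e (fst d) j) = 0 := by
      have h1 := hsub (fun _ => True)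
      simp only [and_true, if_true] at h1
      rw [← h1]
      exact hz (fst d)
    have key1 := finRotate_sum (n (fst d)) (fun j => z (e (fst d) j)) hsum0 i
    have hA : ∑ c with fst c = fst d ∧ key (σ d) < key c, z c =
        ∑ j with finRotate (n (fst d)) i < j, z (e (fst d) j) := by
      rw [hsub (fun c => key (σ d) < key c), Finset.sum_filter]
      refine Finset.sum_congr rfl (fun j _ => ?_)
      refine if_congr ?_ rfl rfl
      rw [← hlt, hsd]
    have hB : ∑ c with fst c = fst d ∧ key d < key c, z c =
        ∑ j with i < j, z (e (fst d) j) := by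
      rw [hsub (fun c => key d < key c), Finset.sum_filter]
      refine Finset.sum_congr rfl (fun j _ => ?_)
      refine if_congr ?_ rfl rfl
      rw [← hlt, hd]
    rw [hA, hB, ← key1, hsd]

end Pool.Agent.CubicFree
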