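import Mathlib
import Pool.Agent.CubicFree.Pert
import Pool.Agent.CubicFree.RotEuler
import Pool.Agent.CubicFree.Rotation

set_option autoImplicit false

/-!
# The rotation system of a straight-line drawing has genus zero
-/

namespace Pool.Agent.CubicFree

open Finset Filter Topology

variable {V : Type*}

section geometry

variable {G : SimpleGraph V} (φ : V → ℝ × ℝ)

/-- slope of a dart -/
noncomputable def sl (d : G.Dart) : ℝ := ((φ d.snd).2 - (φ d.fst).2) / ((φ d.snd).1 - (φ d.fst).1)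

/-- height of the line through a dart at the abscissa `t` -/
noncomputable def ht (d : G.Dart) (t : ℝ) : ℝ := (φ d.fst).2 + (t - (φ d.fst).1) * sl φ d

theorem sl_symm (d : G.Dart) : sl φ d.symm = sl φ d := by
  show ((φ d.fst).2 - (φ d.snd).2) / ((φ d.fst).1 - (φ d.snd).1) = _
  unfold sl
  rw [← neg_sub (φ d.snd).2, ← neg_sub (φ d.snd).1, neg_div_neg_eq]

theorem ht_fst (d : G.Dart) : ht φ d (φ d.fst).1 = (φ d.fst).2 := by
  unfold ht; simp

theorem ht_snd (d : G.Dart) (h : (φ d.fst).1 ≠ (φ d.snd).1) : ht φ d (φ d.snd).1 = (φ d.snd).2 := by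
  unfold ht sl
  have : (φ d.snd).1 - (φ d.fst).1 ≠ 0 := sub_ne_zero.mpr h.symm
  field_simp
  ring

theorem ht_snd' (d : G.Dart) (h : (φ d.fst).1 ≠ (φ d.snd).1) (t : ℝ) :
    ht φ d t = (φ d.snd).2 + (t - (φ d.snd).1) * sl φ d := by
  have := ht_snd φ d h
  unfold ht at this ⊢
  linear_combination this

theorem ht_symm (d : G.Dart) (h : (φ d.fst).1 ≠ (φ d.snd).1) (t : ℝ) :
    ht φ d.symm t = ht φ d t := by
  rw [ht_snd' φ d h]
  unfold ht
  rw [sl_symm]
  rfl

theorem ht_continuous (d : G.Dart) : Continuous (ht φ d) := by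
  unfold ht
  fun_prop

theorem mem_seg (d : G.Dart) {t : ℝ} (h : (φ d.fst).1 < (φ d.snd).1) (h1 : (φ d.fst).1 ≤ t)
    (h2 : t ≤ (φ d.snd).1) : (t, ht φ d t) ∈ segment ℝ (φ d.fst) (φ d.snd) := by
  rw [segment_eq_image']
  have hpos : 0 < (φ d.snd).1 - (φ d.fst).1 := sub_pos.mpr h
  refine ⟨(t - (φ d.fst).1) / ((φ d.snd).1 - (φ d.fst).1), ⟨?_, ?_⟩, ?_⟩
  · exact div_nonneg (sub_nonneg.mpr h1) hpos.le
  · rw [div_le_one hpos]; linarith
  · ext
    · simp only [Prod.fst_add, Prod.smul_fst, Prod.fst_sub, smul_eq_mul]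
      rw [div_mul_cancel₀ _ hpos.ne']
      ring
    · simp only [Prod.snd_add, Prod.smul_snd, Prod.snd_sub, smul_eq_mul]
      unfold ht sl
      field_simp

variable {φ}

theorem F1 (hφ : IsDrawing G φ) {c d : G.Dart} (hcd : c ≠ d)
    (hc : (φ c.fst).1 < (φ c.snd).1) (hd : (φ d.fst).1 < (φ d.snd).1) {t : ℝ}
    (h1 : (φ c.fst).1 < t) (h2 : t < (φ c.snd).1) (h3 : (φ d.fst).1 ≤ t) (h4 : t ≤ (φ d.snd).1) :
    ht φ d t ≠ ht φ c t := by
  intro he
  have hne : s(c.fst, c.snd) ≠ s(d.fst, d.snd) := by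
    intro h
    have h5 : c.edge = d.edge := h
    rw [SimpleGraph.dart_edge_eq_iff] at h5
    rcases h5 with h5 | h5
    · exact hcd h5
    · have : (φ c.fst).1 = (φ d.snd).1 := by rw [h5]; rfl
      have h6 : (φ c.snd).1 = (φ d.fst).1 := by rw [h5]; rfl
      linarith
  obtain ⟨w, hw, -, hp⟩ := hφ.edge _ _ _ _ c.adj d.adj hne (t, ht φ c t)
    (mem_seg φ c hc h1.le h2.le) (by rw [← he]; exact mem_seg φ d hd h3 h4)
  have ht' : t = (φ w).1 := congrArg Prod.fst hp
  rcases hw with rfl | rfl <;> linarith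

theorem F2 (hφ : IsDrawing G φ) {d : G.Dart} {w : V} (h1 : (φ d.fst).1 < (φ w).1)
    (h2 : (φ w).1 < (φ d.snd).1) : ht φ d (φ w).1 ≠ (φ w).2 := by
  intro he
  apply hφ.vertex d.fst d.snd w d.adj (by rintro rfl; exact lt_irrefl _ h1)
    (by rintro rfl; exact lt_irrefl _ h2)
  have := mem_seg φ d (h1.trans h2) h1.le h2.le
  rw [he] at this
  exact this

theorem F3 (hφ : IsDrawing G φ) (hx : ∀ u v, u ≠ v → (φ u).1 ≠ (φ v).1) {c d : G.Dart}
    (hf : c.fst = d.fst) (hside : (φ c.fst).1 < (φ c.snd).1 ↔ (φ d.fst).1 < (φ d.snd).1)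
    (hs : sl φ c = sl φ d) : c = d := by
  by_contra hcd
  have hsnd : c.snd ≠ d.snd := by
    intro h
    exact hcd (SimpleGraph.Dart.ext _ _ (Prod.ext hf h))
  have hxs := hx _ _ hsnd
  have hhe : ∀ t, ht φ c t = ht φ d t := by
    intro t
    unfold ht
    rw [hf, hs]
  have cne := hx _ _ c.fst_ne_snd
  have dne := hx _ _ d.fst_ne_snd
  by_cases hc : (φ c.fst).1 < (φ c.snd).1
  · have hd := hside.mp hc
    rcases lt_or_gt_of_ne hxs with h | h
    · apply F2 hφ (d := d) (w := c.snd) (by rw [← hf]; exact hc) h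
      rw [← hhe, ht_snd φ c cne]
    · apply F2 hφ (d := c) (w := d.snd) (by rw [hf]; exact hd) h
      rw [hhe, ht_snd φ d dne]
  · have hd : ¬ (φ d.fst).1 < (φ d.snd).1 := fun h => hc (hside.mpr h)
    have hc' : (φ c.snd).1 < (φ c.fst).1 := lt_of_le_of_ne (not_lt.mp hc) cne.symm
    have hd' : (φ d.snd).1 < (φ d.fst).1 := lt_of_le_of_ne (not_lt.mp hd) dne.symm
    rcases lt_or_gt_of_ne hxs with h | h
    · apply F2 hφ (d := c.symm) (w := d.snd) (by exact h) (by show _ < (φ c.fst).1; rw [hf]; exact hd')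
      rw [ht_symm φ c cne, hhe, ht_snd φ d dne]
    · apply F2 hφ (d := d.symm) (w := c.snd) (by exact h) (by show _ < (φ d.fst).1; rw [← hf]; exact hc')
      rw [ht_symm φ d dne, ← hhe, ht_snd φ c cne]

theorem sign_ev {c d : G.Dart} {t0 : ℝ} (h : ht φ d t0 ≠ ht φ c t0) :
    ∀ᶠ t in 𝓝 t0, (ht φ c t < ht φ d t ↔ ht φ c t0 < ht φ d t0) := by
  rcases lt_or_gt_of_ne h with h' | h'
  · filter_upwards [((ht_continuous φ d).tendsto t0).eventually_lt
      ((ht_continuous φ c).tendsto t0) h'] with t ht'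
    exact ⟨fun h => absurd h (not_lt.mpr ht'.le), fun h => absurd h (not_lt.mpr h'.le)⟩
  · filter_upwards [((ht_continuous φ c).tendsto t0).eventually_lt
      ((ht_continuous φ d).tendsto t0) h'] with t ht'
    exact ⟨fun _ => h', fun _ => ht'⟩

end geometry

section sweep

variable [Fintype V] [DecidableEq V] {G : SimpleGraph V} [DecidableRel G.Adj] (φ : V → ℝ × ℝ)

open scoped Classical in
/-- total weight of the edges passing above a vertex -/
noncomputable def PP (z : G.Dart → ZMod 2) (w : V) : ZMod 2 :=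
  ∑ d : G.Dart with ((φ d.fst).1 < (φ w).1 ∧ (φ w).1 < (φ d.snd).1 ∧ (φ w).2 < ht φ d (φ w).1), z d

open scoped Classical in
/-- total weight of the edges above the edge `c` at the abscissa `t` -/
noncomputable def Psi (z : G.Dart → ZMod 2) (c : G.Dart) (t : ℝ) : ZMod 2 :=
  ∑ d : G.Dart with ((φ d.fst).1 ≤ t ∧ t < (φ d.snd).1 ∧ ht φ c t < ht φ d t), z d

variable {φ}

open scoped Classical in
theorem E1 (hφ : IsDrawing G φ) (hx : ∀ u v, u ≠ v → (φ u).1 ≠ (φ v).1) (z : G.Dart → ZMod 2)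
    (c : G.Dart) :
    ∀ᶠ t in 𝓝[>] (φ c.fst).1, Psi φ z c t = PP φ z c.fst +
      ∑ d : G.Dart with (d.fst = c.fst ∧ (φ d.fst).1 < (φ d.snd).1 ∧ sl φ c < sl φ d), z d := by
  have hev : ∀ᶠ t in 𝓝[>] (φ c.fst).1, ∀ d : G.Dart,
      (((φ d.fst).1 ≤ t ∧ t < (φ d.snd).1 ∧ ht φ c t < ht φ d t) ↔
        (((φ d.fst).1 < (φ c.fst).1 ∧ (φ c.fst).1 < (φ d.snd).1 ∧
          (φ c.fst).2 < ht φ d (φ c.fst).1) ∨
        (d.fst = c.fst ∧ (φ d.fst).1 < (φ d.snd).1 ∧ sl φ c < sl φ d))) := by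
    rw [eventually_all]
    intro d
    have hgt : ∀ᶠ t in 𝓝[>] (φ c.fst).1, (φ c.fst).1 < t := self_mem_nhdsWithin
    by_cases hf : d.fst = c.fst
    · by_cases hR : (φ d.fst).1 < (φ d.snd).1
      · have h2 : ∀ᶠ t in 𝓝[>] (φ c.fst).1, t < (φ d.snd).1 :=
          (eventually_lt_nhds (by rw [← hf]; exact hR)).filter_mono nhdsWithin_le_nhds
        filter_upwards [hgt, h2] with t h3 h4
        have h5 : 0 < t - (φ c.fst).1 := sub_pos.mpr h3
        unfold ht
        rw [hf]
        constructor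
        · rintro ⟨-, -, h6⟩
          right
          refine ⟨rfl, by rw [← hf]; exact hR, ?_⟩
          by_contra h7
          have := mul_le_mul_of_nonneg_left (not_lt.mp h7) h5.le
          linarith
        · rintro (⟨h6, -, -⟩ | ⟨-, -, h6⟩)
          · exact absurd h6 (lt_irrefl _)
          · refine ⟨h3.le, h4, ?_⟩
            have := mul_lt_mul_of_pos_left h6 h5
            linarith
      · filter_upwards [hgt] with t h3
        constructor
        · rintro ⟨-, h4, -⟩
          exfalso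
          apply hR
          rw [hf]
          exact h3.trans h4
        · rintro (⟨h6, h7, -⟩ | ⟨-, h6, -⟩)
          · exact absurd (h6.trans h7) hR
          · exact absurd h6 hR
    · have hxf := hx _ _ hf
      rcases lt_or_gt_of_ne hxf with h | h
      · by_cases h2 : (φ c.fst).1 < (φ d.snd).1
        · have h3 : ∀ᶠ t in 𝓝[>] (φ c.fst).1, t < (φ d.snd).1 :=
            (eventually_lt_nhds h2).filter_mono nhdsWithin_le_nhds
          have h4 : ∀ᶠ t in 𝓝[>] (φ c.fst).1, (ht φ c t < ht φ d t ↔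
              ht φ c (φ c.fst).1 < ht φ d (φ c.fst).1) :=
            (sign_ev (by rw [ht_fst]; exact F2 hφ h h2)).filter_mono nhdsWithin_le_nhds
          filter_upwards [hgt, h3, h4] with t h5 h6 h7
          rw [h7, ht_fst]
          constructor
          · rintro ⟨-, -, h8⟩
            exact Or.inl ⟨h, h2, h8⟩
          · rintro (⟨-, -, h8⟩ | ⟨h8, -⟩)
            · exact ⟨(h.trans h5).le, h6, h8⟩
            · exact absurd h8 hf
        · filter_upwards [hgt] with t h3
          constructor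
          · rintro ⟨-, h4, -⟩
            exact absurd (h3.trans h4) h2
          · rintro (⟨-, h4, -⟩ | ⟨h8, -⟩)
            · exact absurd h4 h2
            · exact absurd h8 hf
      · have h3 : ∀ᶠ t in 𝓝[>] (φ c.fst).1, t < (φ d.fst).1 :=
          (eventually_lt_nhds h).filter_mono nhdsWithin_le_nhds
        filter_upwards [h3] with t h4
        constructor
        · rintro ⟨h5, -, -⟩
          exact absurd h5 (not_le.mpr h4)
        · rintro (⟨h5, -, -⟩ | ⟨h8, -⟩)
          · exact absurd h5 (not_lt.mpr h.le)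
          · exact absurd h8 hf
  filter_upwards [hev] with t ht'
  unfold Psi PP
  rw [Finset.filter_congr (fun d _ => ht' d), Finset.filter_or, Finset.sum_union]
  rw [Finset.disjoint_filter]
  rintro d - ⟨h1, -, -⟩ ⟨h2, -, -⟩
  rw [h2] at h1
  exact lt_irrefl _ h1

omit [DecidableEq V] in
theorem sum_symm (z : G.Dart → ZMod 2) (hz : ∀ d, z d.symm = z d) (p : G.Dart → Prop)
    [DecidablePred p] :
    ∑ d : G.Dart with p d, z d = ∑ d : G.Dart with p d.symm, z d := by
  refine Finset.sum_bij (fun d _ => d.symm) ?_ ?_ ?_ ?_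
  · intro d hd
    rw [Finset.mem_filter] at hd ⊢
    refine ⟨mem_univ _, ?_⟩
    rw [SimpleGraph.Dart.symm_symm]
    exact hd.2
  · intro a _ b _ h
    exact SimpleGraph.Dart.symm_involutive.injective h
  · intro b hb
    rw [Finset.mem_filter] at hb
    exact ⟨b.symm, by rw [Finset.mem_filter]; exact ⟨mem_univ _, hb.2⟩, b.symm_symm⟩
  · intro d _
    exact (hz d).symm

open scoped Classical in
theorem E2 (hφ : IsDrawing G φ) (hx : ∀ u v, u ≠ v → (φ u).1 ≠ (φ v).1) (z : G.Dart → ZMod 2)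
    (c : G.Dart) :
    ∀ᶠ t in 𝓝[<] (φ c.snd).1, Psi φ z c t = PP φ z c.snd +
      ∑ d : G.Dart with (d.snd = c.snd ∧ (φ d.fst).1 < (φ d.snd).1 ∧ sl φ d < sl φ c), z d := by
  have hcne := hx _ _ c.fst_ne_snd
  have hev : ∀ᶠ t in 𝓝[<] (φ c.snd).1, ∀ d : G.Dart,
      (((φ d.fst).1 ≤ t ∧ t < (φ d.snd).1 ∧ ht φ c t < ht φ d t) ↔
        (((φ d.fst).1 < (φ c.snd).1 ∧ (φ c.snd).1 < (φ d.snd).1 ∧
          (φ c.snd).2 < ht φ d (φ c.snd).1) ∨
        (d.snd = c.snd ∧ (φ d.fst).1 < (φ d.snd).1 ∧ sl φ d < sl φ c))) := by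
    rw [eventually_all]
    intro d
    have hlt : ∀ᶠ t in 𝓝[<] (φ c.snd).1, t < (φ c.snd).1 := self_mem_nhdsWithin
    have hdne := hx _ _ d.fst_ne_snd
    by_cases hf : d.snd = c.snd
    · by_cases hR : (φ d.fst).1 < (φ d.snd).1
      · have h2 : ∀ᶠ t in 𝓝[<] (φ c.snd).1, (φ d.fst).1 < t :=
          (eventually_gt_nhds (by rw [← hf]; exact hR)).filter_mono nhdsWithin_le_nhds
        filter_upwards [hlt, h2] with t h3 h4
        have h5 : t - (φ c.snd).1 < 0 := sub_neg.mpr h3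
        rw [ht_snd' φ c hcne, ht_snd' φ d hdne, hf]
        constructor
        · rintro ⟨-, -, h6⟩
          right
          refine ⟨rfl, by rw [← hf]; exact hR, ?_⟩
          by_contra h7
          have := mul_le_mul_of_nonpos_left (not_lt.mp h7) h5.le
          linarith
        · rintro (⟨-, h6, -⟩ | ⟨-, -, h6⟩)
          · exact absurd h6 (lt_irrefl _)
          · refine ⟨h4.le, h3, ?_⟩
            have := mul_lt_mul_of_neg_left h6 h5
            linarith
      · filter_upwards [hlt] with t h3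
        constructor
        · rintro ⟨h4, h5, -⟩
          exact absurd (h4.trans_lt h5) hR
        · rintro (⟨h6, h7, -⟩ | ⟨-, h6, -⟩)
          · exact absurd (h6.trans h7) hR
          · exact absurd h6 hR
    · have hxf := hx _ _ hf
      rcases lt_or_gt_of_ne hxf with h | h
      · have h3 : ∀ᶠ t in 𝓝[<] (φ c.snd).1, (φ d.snd).1 < t :=
          (eventually_gt_nhds h).filter_mono nhdsWithin_le_nhds
        filter_upwards [h3] with t h4
        constructor
        · rintro ⟨-, h5, -⟩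
          exact absurd h5 (not_lt.mpr h4.le)
        · rintro (⟨-, h5, -⟩ | ⟨h8, -⟩)
          · exact absurd h5 (not_lt.mpr h.le)
          · exact absurd h8 hf
      · by_cases h2 : (φ d.fst).1 < (φ c.snd).1
        · have h3 : ∀ᶠ t in 𝓝[<] (φ c.snd).1, (φ d.fst).1 < t :=
            (eventually_gt_nhds h2).filter_mono nhdsWithin_le_nhds
          have h4 : ∀ᶠ t in 𝓝[<] (φ c.snd).1, (ht φ c t < ht φ d t ↔
              ht φ c (φ c.snd).1 < ht φ d (φ c.snd).1) :=
            (sign_ev (by rw [ht_snd φ c hcne]; exact F2 hφ h2 h)).filter_mono nhdsWithin_le_nhds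
          filter_upwards [hlt, h3, h4] with t h5 h6 h7
          rw [h7, ht_snd φ c hcne]
          constructor
          · rintro ⟨-, -, h8⟩
            exact Or.inl ⟨h2, h, h8⟩
          · rintro (⟨-, -, h8⟩ | ⟨h8, -⟩)
            · exact ⟨h6.le, h5.trans h, h8⟩
            · exact absurd h8 hf
        · filter_upwards [hlt] with t h3
          constructor
          · rintro ⟨h4, -, -⟩
            exact absurd (h4.trans_lt h3) h2
          · rintro (⟨h4, -, -⟩ | ⟨h8, -⟩)
            · exact absurd h4 h2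
            · exact absurd h8 hf
  filter_upwards [hev] with t ht'
  unfold Psi PP
  rw [Finset.filter_congr (fun d _ => ht' d), Finset.filter_or, Finset.sum_union]
  rw [Finset.disjoint_filter]
  rintro d - ⟨-, h1, -⟩ ⟨h2, -, -⟩
  rw [h2] at h1
  exact lt_irrefl _ h1

theorem E3r (hφ : IsDrawing G φ) (z : G.Dart → ZMod 2)
    (c : G.Dart) {t0 : ℝ} (h1 : (φ c.fst).1 < t0) (h2 : t0 < (φ c.snd).1) :
    ∀ᶠ t in 𝓝[>] t0, Psi φ z c t = Psi φ z c t0 := by
  classical
  have hev : ∀ᶠ t in 𝓝[>] t0, ∀ d : G.Dart,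
      (((φ d.fst).1 ≤ t ∧ t < (φ d.snd).1 ∧ ht φ c t < ht φ d t) ↔
        ((φ d.fst).1 ≤ t0 ∧ t0 < (φ d.snd).1 ∧ ht φ c t0 < ht φ d t0)) := by
    rw [eventually_all]
    intro d
    have hgt : ∀ᶠ t in 𝓝[>] t0, t0 < t := self_mem_nhdsWithin
    by_cases h3 : (φ d.fst).1 ≤ t0
    · by_cases h4 : t0 < (φ d.snd).1
      · by_cases hcd : c = d
        · subst hcd
          exact Eventually.of_forall (fun t => ⟨fun h => absurd h.2.2 (lt_irrefl _),
            fun h => absurd h.2.2 (lt_irrefl _)⟩)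
        · have h5 : ∀ᶠ t in 𝓝[>] t0, t < (φ d.snd).1 :=
            (eventually_lt_nhds h4).filter_mono nhdsWithin_le_nhds
          have h6 : ∀ᶠ t in 𝓝[>] t0, (ht φ c t < ht φ d t ↔ ht φ c t0 < ht φ d t0) :=
            (sign_ev (F1 hφ hcd (h1.trans h2) (h3.trans_lt h4) h1 h2 h3 h4.le)).filter_mono
              nhdsWithin_le_nhds
          filter_upwards [hgt, h5, h6] with t h7 h8 h9
          rw [h9]
          exact ⟨fun h => ⟨h3, h4, h.2.2⟩, fun h => ⟨h3.trans h7.le, h8, h.2.2⟩⟩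
      · filter_upwards [hgt] with t h5
        exact ⟨fun h => absurd (h5.trans h.2.1) h4, fun h => absurd h.2.1 h4⟩
    · have h5 : ∀ᶠ t in 𝓝[>] t0, t < (φ d.fst).1 :=
        (eventually_lt_nhds (not_le.mp h3)).filter_mono nhdsWithin_le_nhds
      filter_upwards [h5] with t h6
      exact ⟨fun h => absurd h.1 (not_le.mpr h6), fun h => absurd h.1 h3⟩
  filter_upwards [hev] with t ht'
  unfold Psi
  rw [Finset.filter_congr (fun d _ => ht' d)]

theorem E3l (hφ : IsDrawing G φ) (hx : ∀ u v, u ≠ v → (φ u).1 ≠ (φ v).1) (z : G.Dart → ZMod 2)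
    (hz : ∀ d, z d.symm = z d) (hz0 : ∀ v, ∑ d : G.Dart with d.fst = v, z d = 0)
    (c : G.Dart) {t0 : ℝ} (h1 : (φ c.fst).1 < t0) (h2 : t0 < (φ c.snd).1) :
    ∀ᶠ t in 𝓝[<] t0, Psi φ z c t = Psi φ z c t0 := by
  classical
  have hev : ∀ᶠ t in 𝓝[<] t0, ∀ d : G.Dart,
      (((φ d.fst).1 ≤ t ∧ t < (φ d.snd).1 ∧ ht φ c t < ht φ d t) ↔
        (((φ d.fst).1 < t0 ∧ t0 < (φ d.snd).1 ∧ ht φ c t0 < ht φ d t0) ∨
          ((φ d.snd).1 = t0 ∧ (φ d.fst).1 < (φ d.snd).1 ∧ ht φ c t0 < (φ d.snd).2))) := by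
    rw [eventually_all]
    intro d
    have hlt : ∀ᶠ t in 𝓝[<] t0, t < t0 := self_mem_nhdsWithin
    by_cases h3 : (φ d.fst).1 < t0
    · have h3' : ∀ᶠ t in 𝓝[<] t0, (φ d.fst).1 < t :=
        (eventually_gt_nhds h3).filter_mono nhdsWithin_le_nhds
      by_cases h4 : t0 ≤ (φ d.snd).1
      · by_cases hcd : c = d
        · subst hcd
          refine Eventually.of_forall (fun t => ⟨fun h => absurd h.2.2 (lt_irrefl _), ?_⟩)
          rintro (h | h)
          · exact absurd h.2.2 (lt_irrefl _)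
          · exact absurd h.1 h2.ne'
        · have h6 : ∀ᶠ t in 𝓝[<] t0, (ht φ c t < ht φ d t ↔ ht φ c t0 < ht φ d t0) :=
            (sign_ev (F1 hφ hcd (h1.trans h2) (h3.trans_le h4) h1 h2 h3.le h4)).filter_mono
              nhdsWithin_le_nhds
          filter_upwards [hlt, h3', h6] with t h7 h8 h9
          rw [h9]
          rcases h4.eq_or_lt with h5 | h5
          · have h10 : ht φ d t0 = (φ d.snd).2 := by
              rw [h5]; exact ht_snd φ d (hx _ _ d.fst_ne_snd)
            rw [h10]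
            constructor
            · rintro ⟨-, -, h⟩
              exact Or.inr ⟨h5.symm, h3.trans_le h4, h⟩
            · rintro (⟨-, h, -⟩ | ⟨-, -, h⟩)
              · exact absurd h5 h.ne
              · exact ⟨h8.le, h7.trans_le h4, h⟩
          · constructor
            · rintro ⟨-, -, h⟩
              exact Or.inl ⟨h3, h5, h⟩
            · rintro (⟨-, -, h⟩ | ⟨h, -, -⟩)
              · exact ⟨h8.le, h7.trans h5, h⟩
              · exact absurd h h5.ne'
      · have h5 : ∀ᶠ t in 𝓝[<] t0, (φ d.snd).1 < t :=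
          (eventually_gt_nhds (not_le.mp h4)).filter_mono nhdsWithin_le_nhds
        filter_upwards [h5] with t h6
        constructor
        · rintro ⟨-, h, -⟩
          exact absurd h (not_lt.mpr h6.le)
        · rintro (⟨-, h, -⟩ | ⟨h, -, -⟩)
          · exact absurd h.le h4
          · exact absurd h.ge h4
    · filter_upwards [hlt] with t h5
      constructor
      · rintro ⟨h, -, -⟩
        exact absurd (h.trans_lt h5) h3
      · rintro (⟨h, -, -⟩ | ⟨h, h', -⟩)
        · exact absurd h h3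
        · exact absurd (h'.trans_eq h) h3
  -- the value at `t0`
  have h0 : Psi φ z c t0 = ∑ d : G.Dart with ((φ d.fst).1 < t0 ∧ t0 < (φ d.snd).1 ∧
      ht φ c t0 < ht φ d t0), z d + ∑ d : G.Dart with ((φ d.fst).1 = t0 ∧
      (φ d.fst).1 < (φ d.snd).1 ∧ ht φ c t0 < (φ d.fst).2), z d := by
    unfold Psi
    rw [← Finset.sum_union, ← Finset.filter_or]
    · refine Finset.sum_congr (Finset.filter_congr (fun d _ => ?_)) (fun _ _ => rfl)
      constructor
      · rintro ⟨h3, h4, h5⟩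
        rcases h3.eq_or_lt with h6 | h6
        · right
          refine ⟨h6, h3.trans_lt h4, ?_⟩
          rw [← h6, ht_fst] at h5
          rw [← h6]
          exact h5
        · exact Or.inl ⟨h6, h4, h5⟩
      · rintro (⟨h3, h4, h5⟩ | ⟨h3, h4, h5⟩)
        · exact ⟨h3.le, h4, h5⟩
        · refine ⟨h3.le, by rw [← h3]; exact h4, ?_⟩
          rw [← h3, ht_fst, h3]
          exact h5
    · rw [Finset.disjoint_filter]
      rintro d - ⟨h3, -, -⟩ ⟨h4, -, -⟩
      exact absurd h4 h3.ne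
  -- evenness at the vertices of abscissa `t0`
  have hBC : ∑ d : G.Dart with ((φ d.snd).1 = t0 ∧ (φ d.fst).1 < (φ d.snd).1 ∧
      ht φ c t0 < (φ d.snd).2), z d = ∑ d : G.Dart with ((φ d.fst).1 = t0 ∧
      (φ d.fst).1 < (φ d.snd).1 ∧ ht φ c t0 < (φ d.fst).2), z d := by
    rw [sum_symm z hz (fun d : G.Dart => (φ d.snd).1 = t0 ∧ (φ d.fst).1 < (φ d.snd).1 ∧
      ht φ c t0 < (φ d.snd).2)]
    have hall : ∑ d : G.Dart with ((φ d.fst).1 = t0 ∧ ht φ c t0 < (φ d.fst).2), z d = 0 := by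
      rw [← Finset.sum_fiberwise _ (fun d : G.Dart => d.fst)]
      refine Finset.sum_eq_zero (fun v _ => ?_)
      rw [Finset.filter_filter]
      by_cases hv : (φ v).1 = t0 ∧ ht φ c t0 < (φ v).2
      · rw [← hz0 v]
        refine Finset.sum_congr (Finset.filter_congr (fun d _ => ?_)) (fun _ _ => rfl)
        constructor
        · exact fun h => h.2
        · intro h
          rw [h]
          exact ⟨hv, rfl⟩
      · apply Finset.sum_eq_zero
        intro d hd
        rw [Finset.mem_filter] at hd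
        exfalso
        apply hv
        rw [← hd.2.2]
        exact hd.2.1
    have hsplit : ∑ d : G.Dart with ((φ d.fst).1 = t0 ∧ ht φ c t0 < (φ d.fst).2), z d =
        ∑ d : G.Dart with ((φ d.symm.snd).1 = t0 ∧ (φ d.symm.fst).1 < (φ d.symm.snd).1 ∧
          ht φ c t0 < (φ d.symm.snd).2), z d +
        ∑ d : G.Dart with ((φ d.fst).1 = t0 ∧ (φ d.fst).1 < (φ d.snd).1 ∧
          ht φ c t0 < (φ d.fst).2), z d := by
      rw [← Finset.sum_union, ← Finset.filter_or]
      · refine Finset.sum_congr (Finset.filter_congr (fun d _ => ?_)) (fun _ _ => rfl)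
        show _ ↔ (((φ d.fst).1 = t0 ∧ (φ d.snd).1 < (φ d.fst).1 ∧ ht φ c t0 < (φ d.fst).2) ∨ _)
        constructor
        · rintro ⟨h3, h4⟩
          rcases lt_or_gt_of_ne (hx _ _ d.fst_ne_snd) with h5 | h5
          · exact Or.inr ⟨h3, h5, h4⟩
          · exact Or.inl ⟨h3, h5, h4⟩
        · rintro (⟨h3, -, h4⟩ | ⟨h3, -, h4⟩) <;> exact ⟨h3, h4⟩
      · rw [Finset.disjoint_filter]
        rintro d - ⟨-, h3, -⟩ ⟨-, h4, -⟩
        exact absurd (show (φ d.snd).1 < (φ d.fst).1 from h3) (not_lt.mpr h4.le)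
    rw [hall] at hsplit
    have h5 := zmod2_add_self (∑ d : G.Dart with ((φ d.fst).1 = t0 ∧ (φ d.fst).1 < (φ d.snd).1 ∧
          ht φ c t0 < (φ d.fst).2), z d)
    linear_combination -hsplit - h5
  filter_upwards [hev] with t ht'
  rw [h0, ← hBC]
  unfold Psi
  rw [Finset.filter_congr (fun d _ => ht' d), Finset.filter_or, Finset.sum_union]
  rw [Finset.disjoint_filter]
  rintro d - ⟨-, h3, -⟩ ⟨h4, -, -⟩
  exact absurd h4 h3.ne'

theorem Psi_continuousOn (hφ : IsDrawing G φ) (hx : ∀ u v, u ≠ v → (φ u).1 ≠ (φ v).1)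
    (z : G.Dart → ZMod 2) (hz : ∀ d, z d.symm = z d)
    (hz0 : ∀ v, ∑ d : G.Dart with d.fst = v, z d = 0) (c : G.Dart) :
    ContinuousOn (Psi φ z c) (Set.Ioo (φ c.fst).1 (φ c.snd).1) := by
  intro t0 ht0
  apply ContinuousAt.continuousWithinAt
  have h1 := E3r hφ z c ht0.1 ht0.2
  have h2 := E3l hφ hx z hz hz0 c ht0.1 ht0.2
  have h3 : ∀ᶠ t in 𝓝 t0, Psi φ z c t = Psi φ z c t0 := by
    rw [← nhdsNE_sup_pure, ← nhdsLT_sup_nhdsGT, eventually_sup, eventually_sup]
    exact ⟨⟨h2, h1⟩, rfl⟩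
  exact tendsto_const_nhds.congr' (h3.mono fun t ht => ht.symm)

open scoped Classical in
theorem claimG (hφ : IsDrawing G φ) (hx : ∀ u v, u ≠ v → (φ u).1 ≠ (φ v).1)
    (z : G.Dart → ZMod 2) (hz : ∀ d, z d.symm = z d)
    (hz0 : ∀ v, ∑ d : G.Dart with d.fst = v, z d = 0) (c : G.Dart)
    (hc : (φ c.fst).1 < (φ c.snd).1) :
    PP φ z c.fst +
      ∑ d : G.Dart with (d.fst = c.fst ∧ (φ d.fst).1 < (φ d.snd).1 ∧ sl φ c < sl φ d), z d =
    PP φ z c.snd +
      ∑ d : G.Dart with (d.snd = c.snd ∧ (φ d.fst).1 < (φ d.snd).1 ∧ sl φ d < sl φ c), z d := by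
  obtain ⟨t1, h1, ht1⟩ := ((E1 hφ hx z c).and (Ioo_mem_nhdsGT hc)).exists
  obtain ⟨t2, h2, ht2⟩ := ((E2 hφ hx z c).and (Ioo_mem_nhdsLT hc)).exists
  rw [← h1, ← h2]
  exact isPreconnected_Ioo.constant (Psi_continuousOn hφ hx z hz hz0 c) ht1 ht2

/-- the position of a dart in the counterclockwise order starting downwards -/
noncomputable def dkey (φ : V → ℝ × ℝ) (d : G.Dart) : ℕ ×ₗ ℝ :=
  toLex (if (φ d.fst).1 < (φ d.snd).1 then 0 else 1, sl φ d)

omit [Fintype V] [DecidableEq V] [DecidableRel G.Adj] in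
theorem dkey_inj (hφ : IsDrawing G φ) (hx : ∀ u v, u ≠ v → (φ u).1 ≠ (φ v).1) (c d : G.Dart)
    (hf : c.fst = d.fst) (hk : dkey φ c = dkey φ d) : c = d := by
  unfold dkey at hk
  have h1 := toLex.injective hk
  rw [Prod.mk.injEq] at h1
  refine F3 hφ hx hf ?_ h1.2
  have h2 := h1.1
  split_ifs at h2 with h3 h4 h4
  · exact ⟨fun _ => h4, fun _ => h3⟩
  · exact ⟨fun h => absurd h h3, fun h => absurd h h4⟩

/-- the rotation system of a drawing without vertical pairs of vertices has genus zero -/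
theorem exists_rotation_of_distinct (hconn : G.Connected) (hne : Nonempty G.Dart)
    (hφ : IsDrawing G φ) (hx : ∀ u v, u ≠ v → (φ u).1 ≠ (φ v).1) :
    ∃ σ : Equiv.Perm G.Dart, (∀ d, (σ d).fst = d.fst) ∧
      (∀ d e : G.Dart, d.fst = e.fst → σ.SameCycle d e) ∧
      Fintype.card V + Nat.card (Quotient (Equiv.Perm.SameCycle.setoid (σ * symmPerm G))) =
        Fintype.card G.edgeSet + 2 := by
  classical
  obtain ⟨σ, h1, h2, h3⟩ := exists_rotation (fun d : G.Dart => d.fst) (dkey φ)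
    (dkey_inj hφ hx)
  refine ⟨σ, h1, h2, euler_of_surj G hconn hne σ h1 h2 ?_⟩
  intro z hz hz0
  -- the label on the counterclockwise side of a dart
  let L : G.Dart → ZMod 2 := fun c => PP φ z c.fst +
    ∑ d : G.Dart with (d.fst = c.fst ∧ (φ d.fst).1 < (φ d.snd).1), z d +
    ∑ d : G.Dart with (d.fst = c.fst ∧ dkey φ c < dkey φ d), z d
  have hrot : ∀ c, L (σ c) + z (σ c) = L c := by
    intro c
    have h4 := h3 z hz0 c
    show PP φ z (σ c).fst + ∑ d : G.Dart with (d.fst = (σ c).fst ∧ (φ d.fst).1 < (φ d.snd).1), z d +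
      ∑ d : G.Dart with (d.fst = (σ c).fst ∧ dkey φ (σ c) < dkey φ d), z d + z (σ c) =
      PP φ z c.fst + ∑ d : G.Dart with (d.fst = c.fst ∧ (φ d.fst).1 < (φ d.snd).1), z d +
      ∑ d : G.Dart with (d.fst = c.fst ∧ dkey φ c < dkey φ d), z d
    rw [h1 c, add_assoc, h4]
  -- the key comparison
  have hlt : ∀ c d : G.Dart, dkey φ c < dkey φ d ↔
      ((φ c.fst).1 < (φ c.snd).1 ∧ ¬ (φ d.fst).1 < (φ d.snd).1) ∨
      (((φ c.fst).1 < (φ c.snd).1 ↔ (φ d.fst).1 < (φ d.snd).1) ∧ sl φ c < sl φ d) := by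
    intro c d
    unfold dkey
    rw [Prod.Lex.toLex_lt_toLex]
    by_cases hc : (φ c.fst).1 < (φ c.snd).1 <;> by_cases hd : (φ d.fst).1 < (φ d.snd).1 <;>
      simp [hc, hd]
  -- left and right darts at a vertex have the same total
  have hLR : ∀ v, ∑ d : G.Dart with (d.fst = v ∧ (φ d.fst).1 < (φ d.snd).1), z d =
      ∑ d : G.Dart with (d.fst = v ∧ ¬ (φ d.fst).1 < (φ d.snd).1), z d := by
    intro v
    have h4 : ∑ d : G.Dart with d.fst = v, z d =
        ∑ d : G.Dart with (d.fst = v ∧ (φ d.fst).1 < (φ d.snd).1), z d +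
        ∑ d : G.Dart with (d.fst = v ∧ ¬ (φ d.fst).1 < (φ d.snd).1), z d := by
      rw [← Finset.filter_filter, ← Finset.filter_filter, Finset.sum_filter_add_sum_filter_not]
    rw [hz0] at h4
    have h5 := zmod2_add_self (∑ d : G.Dart with (d.fst = v ∧ ¬ (φ d.fst).1 < (φ d.snd).1), z d)
    linear_combination -h4 - h5
  -- right-directed darts
  have hR : ∀ c : G.Dart, (φ c.fst).1 < (φ c.snd).1 → L c = L c.symm + z c := by
    intro c hc
    have hG := claimG hφ hx z hz hz0 c hc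
    have hL1 : L c = PP φ z c.fst +
        ∑ d : G.Dart with (d.fst = c.fst ∧ (φ d.fst).1 < (φ d.snd).1 ∧ sl φ c < sl φ d), z d := by
      have hs : ∑ d : G.Dart with (d.fst = c.fst ∧ dkey φ c < dkey φ d), z d =
          ∑ d : G.Dart with (d.fst = c.fst ∧ ¬ (φ d.fst).1 < (φ d.snd).1), z d +
          ∑ d : G.Dart with (d.fst = c.fst ∧ (φ d.fst).1 < (φ d.snd).1 ∧ sl φ c < sl φ d),
            z d := by
        rw [← Finset.sum_union, ← Finset.filter_or]
        · refine Finset.sum_congr (Finset.filter_congr (fun d _ => ?_)) (fun _ _ => rfl)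
          rw [hlt]
          constructor
          · rintro ⟨h4, ⟨-, h5⟩ | ⟨h5, h6⟩⟩
            · exact Or.inl ⟨h4, h5⟩
            · exact Or.inr ⟨h4, h5.mp hc, h6⟩
          · rintro (⟨h4, h5⟩ | ⟨h4, h5, h6⟩)
            · exact ⟨h4, Or.inl ⟨hc, h5⟩⟩
            · exact ⟨h4, Or.inr ⟨⟨fun _ => h5, fun _ => hc⟩, h6⟩⟩
        · rw [Finset.disjoint_filter]
          rintro d - ⟨-, h4⟩ ⟨-, h5, -⟩
          exact h4 h5
      show PP φ z c.fst + ∑ d : G.Dart with (d.fst = c.fst ∧ (φ d.fst).1 < (φ d.snd).1), z d +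
        ∑ d : G.Dart with (d.fst = c.fst ∧ dkey φ c < dkey φ d), z d = _
      rw [hs, hLR]
      have h5 := zmod2_add_self
        (∑ d : G.Dart with (d.fst = c.fst ∧ ¬ (φ d.fst).1 < (φ d.snd).1), z d)
      linear_combination h5
    have hL2 : L c.symm + z c = PP φ z c.snd +
        ∑ d : G.Dart with (d.snd = c.snd ∧ (φ d.fst).1 < (φ d.snd).1 ∧ sl φ d < sl φ c), z d := by
      have hcn : ¬ (φ c.symm.fst).1 < (φ c.symm.snd).1 := not_lt.mpr hc.le
      have hsl : sl φ c.symm = sl φ c := sl_symm φ c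
      have hs : ∑ d : G.Dart with (d.fst = c.snd ∧ dkey φ c.symm < dkey φ d), z d =
          ∑ d : G.Dart with (d.fst = c.snd ∧ ¬ (φ d.fst).1 < (φ d.snd).1 ∧ sl φ c < sl φ d),
            z d := by
        refine Finset.sum_congr (Finset.filter_congr (fun d _ => ?_)) (fun _ _ => rfl)
        rw [hlt, hsl]
        constructor
        · rintro ⟨h4, ⟨h5, -⟩ | ⟨h5, h6⟩⟩
          · exact absurd h5 hcn
          · exact ⟨h4, fun h => hcn (h5.mpr h), h6⟩
        · rintro ⟨h4, h5, h6⟩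
          exact ⟨h4, Or.inr ⟨⟨fun h => absurd h hcn, fun h => absurd h h5⟩, h6⟩⟩
      have hsplit : ∑ d : G.Dart with (d.fst = c.snd ∧ ¬ (φ d.fst).1 < (φ d.snd).1), z d =
          ∑ d : G.Dart with (d.fst = c.snd ∧ ¬ (φ d.fst).1 < (φ d.snd).1 ∧ sl φ c < sl φ d), z d +
          (∑ d : G.Dart with (d.fst = c.snd ∧ ¬ (φ d.fst).1 < (φ d.snd).1 ∧ sl φ d < sl φ c), z d +
          z c) := by
        have hz1 : z c = ∑ d : G.Dart with (d = c.symm), z d := by
          rw [Finset.sum_filter, Finset.sum_ite_eq']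
          simp [hz]
        rw [hz1, ← Finset.sum_union, ← Finset.filter_or, ← Finset.sum_union, ← Finset.filter_or]
        · refine Finset.sum_congr (Finset.filter_congr (fun d _ => ?_)) (fun _ _ => rfl)
          constructor
          · rintro ⟨h4, h5⟩
            rcases lt_trichotomy (sl φ c) (sl φ d) with h6 | h6 | h6
            · exact Or.inl ⟨h4, h5, h6⟩
            · right; right
              refine dkey_inj hφ hx d c.symm h4 ?_
              unfold dkey
              rw [if_neg h5, if_neg hcn, hsl, h6]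
            · exact Or.inr (Or.inl ⟨h4, h5, h6⟩)
          · rintro (⟨h4, h5, -⟩ | ⟨h4, h5, -⟩ | h4)
            · exact ⟨h4, h5⟩
            · exact ⟨h4, h5⟩
            · rw [h4]; exact ⟨rfl, hcn⟩
        · rw [Finset.disjoint_filter]
          rintro d - ⟨-, -, h4⟩ (⟨-, -, h5⟩ | h5)
          · exact lt_asymm h4 h5
          · rw [h5, hsl] at h4
            exact lt_irrefl _ h4
        · rw [Finset.disjoint_filter]
          rintro d - ⟨-, -, h4⟩ h5
          rw [h5, hsl] at h4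
          exact lt_irrefl _ h4
      have hsym : ∑ d : G.Dart with (d.snd = c.snd ∧ (φ d.fst).1 < (φ d.snd).1 ∧
            sl φ d < sl φ c), z d =
          ∑ d : G.Dart with (d.fst = c.snd ∧ ¬ (φ d.fst).1 < (φ d.snd).1 ∧ sl φ d < sl φ c),
            z d := by
        rw [sum_symm z hz (fun d : G.Dart => d.snd = c.snd ∧ (φ d.fst).1 < (φ d.snd).1 ∧
            sl φ d < sl φ c)]
        refine Finset.sum_congr (Finset.filter_congr (fun d _ => ?_)) (fun _ _ => rfl)
        rw [sl_symm]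
        show (d.fst = c.snd ∧ (φ d.snd).1 < (φ d.fst).1 ∧ _) ↔ _
        constructor
        · rintro ⟨h4, h5, h6⟩
          exact ⟨h4, not_lt.mpr h5.le, h6⟩
        · rintro ⟨h4, h5, h6⟩
          exact ⟨h4, lt_of_le_of_ne (not_lt.mp h5) (hx _ _ d.fst_ne_snd).symm, h6⟩
      show PP φ z c.snd + ∑ d : G.Dart with (d.fst = c.snd ∧ (φ d.fst).1 < (φ d.snd).1), z d +
        ∑ d : G.Dart with (d.fst = c.snd ∧ dkey φ c.symm < dkey φ d), z d + z c = _
      rw [hs, hLR, hsplit, hsym]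
      have h5 := zmod2_add_self (∑ d : G.Dart with (d.fst = c.snd ∧
        ¬ (φ d.fst).1 < (φ d.snd).1 ∧ sl φ c < sl φ d), z d)
      have h6 := zmod2_add_self (z c)
      linear_combination h5 + h6
    rw [hL1, hL2]
    exact hG
  have hgeo : ∀ c : G.Dart, L c = L c.symm + z c := by
    intro c
    rcases lt_or_gt_of_ne (hx _ _ c.fst_ne_snd) with h | h
    · exact hR c h
    · have h4 := hR c.symm h
      rw [SimpleGraph.Dart.symm_symm, hz] at h4
      have h5 := zmod2_add_self (z c)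
      linear_combination -h4 - h5
  refine ⟨fun c => L c + z c, ?_, ?_⟩
  · intro d
    show L (σ d.symm) + z (σ d.symm) = L d + z d
    rw [hrot, hgeo d.symm, SimpleGraph.Dart.symm_symm, hz]
  · intro d
    show L d + z d + (L d.symm + z d.symm) = z d
    rw [hz, hgeo d]
    have h5 := zmod2_add_self (z d)
    have h6 := zmod2_add_self (L d.symm)
    linear_combination h5 + h6

end sweep

end Pool.Agent.CubicFree
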