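import Mathlib
import Pool.Agent.CubicFree.Sweep

set_option autoImplicit false

/-!
# A connected graph with a straight-line drawing has a rotation system of genus zero
-/

namespace Pool.Agent.CubicFree

open Finset

theorem exists_distinct_x {V : Type*} [Finite V] (G : SimpleGraph V) {φ : V → ℝ × ℝ}
    (h : IsDrawing G φ) :
    ∃ ψ : V → ℝ × ℝ, IsDrawing G ψ ∧ ∀ u v, u ≠ v → (ψ u).1 ≠ (ψ v).1 := by
  obtain ⟨ε, hε, hopen⟩ := isDrawing_open G h
  obtain ⟨n, ⟨e⟩⟩ := Finite.exists_equiv_fin V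
  have hbad : (Set.range fun p : V × V =>
      ((φ p.2).1 - (φ p.1).1) / ((((e p.1 : Fin n) : ℕ) : ℝ) - (((e p.2 : Fin n) : ℕ) : ℝ))).Finite :=
    Set.finite_range _
  have hpos : 0 < ε / (n + 1) := by positivity
  obtain ⟨δ, hδ, hδb⟩ := (Set.Ioo_infinite hpos).exists_notMem_finite hbad
  refine ⟨fun v => ((φ v).1 + δ * ((e v : Fin n) : ℕ), (φ v).2), hopen _ ?_, ?_⟩
  · intro v
    rw [Prod.dist_eq]
    have h1 : dist (φ v).2 (φ v).2 = 0 := dist_self _
    have h2 : dist (φ v).1 ((φ v).1 + δ * ((e v : Fin n) : ℕ)) < ε := by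
      rw [Real.dist_eq]
      have h3 : (φ v).1 - ((φ v).1 + δ * ((e v : Fin n) : ℕ)) = -(δ * ((e v : Fin n) : ℕ)) := by
        ring
      rw [h3, abs_neg, abs_of_nonneg (mul_nonneg hδ.1.le (Nat.cast_nonneg _))]
      have h4 : (((e v : Fin n) : ℕ) : ℝ) ≤ n := by
        exact_mod_cast (e v).2.le
      have h5 : δ * (n + 1) < ε := by
        rw [← lt_div_iff₀ (by positivity)]
        exact hδ.2
      nlinarith [hδ.1]
    simp only [h1]
    exact max_lt h2 hε
  · intro u v huv he
    have he' : (φ u).1 + δ * ((e u : Fin n) : ℕ) = (φ v).1 + δ * ((e v : Fin n) : ℕ) := he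
    apply hδb
    refine ⟨(u, v), ?_⟩
    have hne : (((e u : Fin n) : ℕ) : ℝ) - (((e v : Fin n) : ℕ) : ℝ) ≠ 0 := by
      rw [sub_ne_zero]
      intro h
      have : (e u : ℕ) = (e v : ℕ) := by exact_mod_cast h
      exact huv (e.injective (Fin.ext this))
    show ((φ v).1 - (φ u).1) / _ = δ
    rw [div_eq_iff hne]
    linear_combination -he'

/-- a connected graph with at least one edge and a straight-line crossing-free drawing has a
rotation system of genus zero -/
theorem exists_planar_rotation {V : Type*} [Fintype V] [DecidableEq V] (G : SimpleGraph V)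
    [DecidableRel G.Adj] (hconn : G.Connected) (hne : Nonempty G.Dart) {φ : V → ℝ × ℝ}
    (hφ : IsDrawing G φ) :
    ∃ σ : Equiv.Perm G.Dart, (∀ d, (σ d).fst = d.fst) ∧
      (∀ d e : G.Dart, d.fst = e.fst → σ.SameCycle d e) ∧
      Fintype.card V + Nat.card (Quotient (Equiv.Perm.SameCycle.setoid (σ * symmPerm G))) =
        Fintype.card G.edgeSet + 2 := by
  obtain ⟨ψ, hψ, hx⟩ := exists_distinct_x G hφ
  exact exists_rotation_of_distinct hconn hne hψ hx

end Pool.Agent.CubicFree
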